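import Pool.Agent.SYP.MDefs

/-!
# SYP/G2Heat : the heat semigroup of `Geo2`

The heat semigroup defined by the heat kernel satisfies the facts `Geo.Heat`.
-/

set_option autoImplicit false

open MeasureTheory Set Filter
open scoped ENNReal Topology

namespace Pool.Agent.SYP

section Kernel

variable {X : Type*} [TopologicalSpace X] [SecondCountableTopology X] [MeasurableSpace X]
  [BorelSpace X] {μ : Measure X} {k : X → X → ℝ} {C : ℝ} {f : X → ℝ}

omit [SecondCountableTopology X] [MeasurableSpace X] [BorelSpace X] in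
theorem kernel_right (hk : Continuous (Function.uncurry k)) (x : X) : Continuous (k x) :=
  hk.comp (Continuous.prodMk_right x)

omit [SecondCountableTopology X] in
theorem kernel_integrable (hk : Continuous (Function.uncurry k)) (h0 : ∀ x z, 0 ≤ k x z)
    (hC : ∀ x z, k x z ≤ C) (hf : Integrable f μ) (x : X) :
    Integrable (fun z => k x z * f z) μ :=
  hf.bdd_mul (c := C) (kernel_right hk x).aestronglyMeasurable
    (Eventually.of_forall fun z => by rw [Real.norm_of_nonneg (h0 x z)]; exact hC x z)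

theorem kernel_continuous (hk : Continuous (Function.uncurry k)) (h0 : ∀ x z, 0 ≤ k x z)
    (hC : ∀ x z, k x z ≤ C) (hf : Integrable f μ) :
    Continuous (fun x => ∫ z, k x z * f z ∂μ) := by
  refine continuous_of_dominated (bound := fun z => C * ‖f z‖)
    (fun x => (kernel_integrable hk h0 hC hf x).aestronglyMeasurable)
    (fun x => Eventually.of_forall fun z => ?_) (hf.norm.const_mul C)
    (Eventually.of_forall fun z => ?_)
  · rw [norm_mul, Real.norm_of_nonneg (h0 x z)]
    exact mul_le_mul_of_nonneg_right (hC x z) (norm_nonneg _)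
  · exact (hk.comp (Continuous.prodMk_left z)).mul continuous_const

theorem kernel_integrable_heat [IsFiniteMeasure μ] (hk : Continuous (Function.uncurry k))
    (h0 : ∀ x z, 0 ≤ k x z) (hC : ∀ x z, k x z ≤ C) (hf : Integrable f μ) :
    Integrable (fun x => ∫ z, k x z * f z ∂μ) μ := by
  refine Integrable.of_bound (kernel_continuous hk h0 hC hf).aestronglyMeasurable
    (∫ z, C * ‖f z‖ ∂μ) (Eventually.of_forall fun x => ?_)
  refine (norm_integral_le_integral_norm _).trans (integral_mono
    (kernel_integrable hk h0 hC hf x).norm (hf.norm.const_mul C) fun z => ?_)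
  rw [norm_mul, Real.norm_of_nonneg (h0 x z)]
  exact mul_le_mul_of_nonneg_right (hC x z) (norm_nonneg _)

theorem kernel_mass [IsFiniteMeasure μ] (hk : Continuous (Function.uncurry k))
    (h0 : ∀ x z, 0 ≤ k x z) (hC : ∀ x z, k x z ≤ C) (hs : ∀ x z, k x z = k z x)
    (h1 : ∀ x, ∫ z, k x z ∂μ = 1) (hf : Integrable f μ) :
    ∫ x, ∫ z, k x z * f z ∂μ ∂μ = ∫ x, f x ∂μ := by
  have hi : Integrable (Function.uncurry fun x z : X => k x z * f z) (μ.prod μ) :=
    (hf.comp_snd μ).bdd_mul (c := C) hk.aestronglyMeasurable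
      (Eventually.of_forall fun p => by
        rw [Real.norm_of_nonneg (h0 p.1 p.2)]; exact hC p.1 p.2)
  rw [integral_integral_swap hi]
  refine integral_congr_ae (Eventually.of_forall fun z => ?_)
  show ∫ x, k x z * f z ∂μ = f z
  rw [integral_mul_const]
  have : ∫ x, k x z ∂μ = 1 := by
    rw [← h1 z]
    exact integral_congr_ae (Eventually.of_forall fun x => hs x z)
  rw [this, one_mul]

end Kernel

namespace Geo2

variable {m : ℕ} {D : Geo2 m} {B : ℝ}

theorem Heat.integrable_mul (h : D.Heat B) (M : D.Met) {s : ℝ} (hs : 0 < s) {f : D.X → ℝ}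
    (hf : Integrable f (D.vol M)) (x : D.X) :
    Integrable (fun z => D.hk M s x z * f z) (D.vol M) := by
  obtain ⟨C, hC⟩ := h.hk_bdd M s hs
  exact kernel_integrable (h.hk_cont M s hs) (h.hk_nonneg M s hs) hC hf x

theorem Heat.continuous_heat (h : D.Heat B) (M : D.Met) {s : ℝ} (hs : 0 < s) {f : D.X → ℝ}
    (hf : Integrable f (D.vol M)) : Continuous (fun x => ∫ z, D.hk M s x z * f z ∂(D.vol M)) := by
  obtain ⟨C, hC⟩ := h.hk_bdd M s hs
  exact kernel_continuous (h.hk_cont M s hs) (h.hk_nonneg M s hs) hC hf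

theorem Heat.integrable_heat (hD : D.Rules) (h : D.Heat B) (M : D.Met) {s : ℝ} (hs : 0 < s)
    {f : D.X → ℝ} (hf : Integrable f (D.vol M)) :
    Integrable (fun x => ∫ z, D.hk M s x z * f z ∂(D.vol M)) (D.vol M) := by
  have := hD.fin M
  obtain ⟨C, hC⟩ := h.hk_bdd M s hs
  exact kernel_integrable_heat (h.hk_cont M s hs) (h.hk_nonneg M s hs) hC hf

theorem Heat.mass_heat (hD : D.Rules) (h : D.Heat B) (M : D.Met) {s : ℝ} (hs : 0 < s)
    {f : D.X → ℝ} (hf : Integrable f (D.vol M)) :
    ∫ x, ∫ z, D.hk M s x z * f z ∂(D.vol M) ∂(D.vol M) = ∫ x, f x ∂(D.vol M) := by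
  have := hD.fin M
  obtain ⟨C, hC⟩ := h.hk_bdd M s hs
  exact kernel_mass (h.hk_cont M s hs) (h.hk_nonneg M s hs) hC (h.hk_symm M s hs)
    (h.hk_mass M s hs) hf

theorem Rules.measurableSet_ball (hD : D.Rules) (M : D.Met) (x : D.X) (r : ℝ) :
    MeasurableSet {z | D.dist M x z < r} :=
  (isOpen_lt (hD.dist_cont M x) continuous_const).measurableSet

theorem Heat.lower_heat (hD : D.Rules) (h : D.Heat B) (M : D.Met) {r : ℝ} (hr : 0 < r)
    {f : D.X → ℝ} (hf : Integrable f (D.vol M)) (h0 : ∀ x, 0 ≤ f x) (x : D.X) :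
    ∫ z in {z | D.dist M x z < r}, f z ∂(D.vol M) ≤
      B * (D.vol M).real {z | D.dist M x z < r} *
        ∫ z, D.hk M (r ^ 2) x z * f z ∂(D.vol M) := by
  have hr2 : 0 < r ^ 2 := by positivity
  have hi : Integrable (fun z => B * (D.vol M).real {z | D.dist M x z < r} *
      (D.hk M (r ^ 2) x z * f z)) (D.vol M) :=
    (h.integrable_mul M hr2 hf x).const_mul _
  have h1 : ∫ z in {z | D.dist M x z < r}, f z ∂(D.vol M) ≤
      ∫ z in {z | D.dist M x z < r}, B * (D.vol M).real {z | D.dist M x z < r} *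
        (D.hk M (r ^ 2) x z * f z) ∂(D.vol M) := by
    refine setIntegral_mono_on hf.integrableOn hi.integrableOn (hD.measurableSet_ball M x r)
      (fun z hz => ?_)
    have := mul_le_mul_of_nonneg_right (h.lower M r hr x z hz) (h0 z)
    simpa [mul_assoc, toGeo, SYN.Geo.ball] using this
  have h2 : ∫ z in {z | D.dist M x z < r}, B * (D.vol M).real {z | D.dist M x z < r} *
        (D.hk M (r ^ 2) x z * f z) ∂(D.vol M) ≤
      ∫ z, B * (D.vol M).real {z | D.dist M x z < r} *
        (D.hk M (r ^ 2) x z * f z) ∂(D.vol M) := by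
    refine setIntegral_le_integral hi (Eventually.of_forall fun z => ?_)
    exact mul_nonneg (mul_nonneg h.pos.le measureReal_nonneg)
      (mul_nonneg (h.hk_nonneg M _ hr2 x z) (h0 z))
  refine (h1.trans h2).trans (le_of_eq ?_)
  rw [integral_const_mul]

theorem Heat.toHeat (hD : D.Rules) (h : D.Heat B) : D.toGeo.Heat B where
  pos := h.pos
  cont M s hs f hf := ⟨h.continuous_heat M hs hf.2, h.integrable_heat hD M hs hf.2⟩
  smooth := h.smooth
  mono M s hs f g hf hg hfg x := by
    refine integral_mono (h.integrable_mul M hs hf.2 x) (h.integrable_mul M hs hg.2 x)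
      (fun z => ?_)
    exact mul_le_mul_of_nonneg_left (hfg z) (h.hk_nonneg M s hs x z)
  neg M s f x := by
    show ∫ z, D.hk M s x z * - f z ∂(D.vol M) = - ∫ z, D.hk M s x z * f z ∂(D.vol M)
    rw [← integral_neg]
    exact integral_congr_ae (Eventually.of_forall fun z => by ring_nf)
  smul M s c f x := by
    show ∫ z, D.hk M s x z * (c * f z) ∂(D.vol M) = c * ∫ z, D.hk M s x z * f z ∂(D.vol M)
    rw [← integral_const_mul]
    exact integral_congr_ae (Eventually.of_forall fun z => by ring_nf)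
  zero M s x := by
    show ∫ z, D.hk M s x z * 0 ∂(D.vol M) = 0
    simp
  mass M s hs f hf := h.mass_heat hD M hs hf.2
  lap := h.lap
  near := h.near
  grad := h.grad
  bochner := h.bochner
  harnack M s hs f hf h0 x z hxz := by
    have hs2 : 0 < 2 * s := by positivity
    show ∫ w, D.hk M s z w * f w ∂(D.vol M) ≤ B * ∫ w, D.hk M (2 * s) x w * f w ∂(D.vol M)
    rw [← integral_const_mul]
    refine integral_mono (h.integrable_mul M hs hf.2 z)
      ((h.integrable_mul M hs2 hf.2 x).const_mul B) (fun w => ?_)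
    have := mul_le_mul_of_nonneg_right (h.harnack M s hs x z w hxz) (h0 w)
    simpa [mul_assoc] using this
  lower M r hr f hf h0 x := h.lower_heat hD M hr hf.2 h0 x
  bishop := h.bishop
  upper := h.upper

end Geo2

end Pool.Agent.SYP
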