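import Pool.Agent.SYP.Geo2

/-!
# SYP/G2Rules : the rules of `SYN.Geo` from the rules of `Geo2`
-/

set_option autoImplicit false

open MeasureTheory Set Filter
open scoped ENNReal Topology Matrix

namespace Pool.Agent.SYP

namespace Geo2

variable {m : ℕ} {D : Geo2 m}

theorem fderiv_lin (c : ℝ) (v w : Fin 2 → ℝ) :
    fderiv ℝ (fun v : Fin 2 → ℝ => v 0 + c * v 1) v w = w 0 + c * w 1 := by
  have h1 : HasFDerivAt (fun v : Fin 2 → ℝ => v 0 + c * v 1)
      ((ContinuousLinearMap.proj (R := ℝ) (φ := fun _ : Fin 2 => ℝ) 0) +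
        c • (ContinuousLinearMap.proj (R := ℝ) (φ := fun _ : Fin 2 => ℝ) 1)) v := by
    exact (ContinuousLinearMap.proj (R := ℝ) (φ := fun _ : Fin 2 => ℝ) 0).hasFDerivAt.add
      ((ContinuousLinearMap.proj (R := ℝ) (φ := fun _ : Fin 2 => ℝ) 1).hasFDerivAt.const_mul c)
  rw [h1.fderiv]
  simp

theorem Rules.lin (h : D.Rules) (M : D.Met) (f g : D.X → ℝ)
    (hf : f ∈ D.sm M) (hg : g ∈ D.sm M) (c : ℝ) :
    (fun x => f x + c * g x) ∈ D.sm M ∧
    (∀ x, D.dl M (fun x => f x + c * g x) x = D.dl M f x + (c : ℂ) • D.dl M g x) ∧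
    ∀ x, D.lev M (fun x => f x + c * g x) x = D.lev M f x + (c : ℂ) • D.lev M g x := by
  have hF : ContDiff ℝ (⊤ : ℕ∞) (fun v : Fin 2 → ℝ => v 0 + c * v 1) := by fun_prop
  have hfg : ∀ i : Fin 2, (![f, g] : Fin 2 → D.X → ℝ) i ∈ D.sm M := by
    intro i
    fin_cases i
    · exact hf
    · exact hg
  have e : (fun x => (fun v : Fin 2 → ℝ => v 0 + c * v 1)
      (fun i => (![f, g] : Fin 2 → D.X → ℝ) i x)) = fun x => f x + c * g x := rfl
  have h1 := h.sm_comp M 2 _ hF _ hfg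
  have h2 := h.dl_comp M 2 _ hF _ hfg
  have h3 := h.lev_comp M 2 _ hF _ hfg
  rw [e] at h1 h2 h3
  refine ⟨h1, fun x => ?_, fun x => ?_⟩
  · rw [h2 x]
    simp only [fderiv_lin, Fin.sum_univ_two]
    simp
  · rw [h3 x]
    simp only [fderiv_lin, Fin.sum_univ_two]
    simp

theorem Rules.sm_add_mul (h : D.Rules) (M : D.Met) (f g : D.X → ℝ)
    (hf : f ∈ D.sm M) (hg : g ∈ D.sm M) (c : ℝ) : (fun x => f x + c * g x) ∈ D.sm M ∧
    ∀ x, D.lev M (fun x => f x + c * g x) x = D.lev M f x + (c : ℂ) • D.lev M g x :=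
  ⟨(h.lin M f g hf hg c).1, (h.lin M f g hf hg c).2.2⟩

theorem Rules.const (h : D.Rules) (M : D.Met) (c : ℝ) :
    (fun _ => c) ∈ D.sm M ∧ ∀ x, D.dl M (fun _ => c) x = 0 := by
  have hF : ContDiff ℝ (⊤ : ℕ∞) (fun _ : Fin 0 → ℝ => c) := contDiff_const
  have hf : ∀ i : Fin 0, (fun i : Fin 0 => (Fin.elim0 i : D.X → ℝ)) i ∈ D.sm M :=
    fun i => Fin.elim0 i
  refine ⟨h.sm_comp M 0 _ hF _ hf, fun x => ?_⟩
  have := h.dl_comp M 0 _ hF _ hf x
  rw [this]
  simp

theorem Rules.int_lap (h : D.Rules) (M : D.Met) (f : D.X → ℝ)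
    (hf : f ∈ D.sm M) : ∫ x, (D.lev M f x).trace.re ∂(D.vol M) = 0 := by
  have h1 := h.ibp M (fun _ => 1) (h.const M 1).1 f hf
  have h2 : ∀ x, (D.pr M (fun _ => 1) f x).re = 0 := by
    intro x
    rw [pr, (h.const M 1).2 x]
    simp
  simp only [h2, integral_zero, one_mul] at h1
  linarith

theorem Rules.dl_sub (h : D.Rules) (M : D.Met) (f g : D.X → ℝ)
    (hf : f ∈ D.sm M) (hg : g ∈ D.sm M) :
    (fun x => f x - g x) ∈ D.sm M ∧
    (∀ x, D.dl M (fun x => f x - g x) x = D.dl M f x - D.dl M g x) ∧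
    ∀ x, D.lev M (fun x => f x - g x) x = D.lev M f x - D.lev M g x := by
  have e : (fun x => f x - g x) = fun x => f x + (-1) * g x := by
    funext x; ring
  obtain ⟨h1, h2, h3⟩ := h.lin M f g hf hg (-1)
  rw [e]
  refine ⟨h1, fun x => ?_, fun x => ?_⟩
  · rw [h2 x]
    push_cast
    rw [neg_one_smul, sub_eq_add_neg]
  · rw [h3 x]
    push_cast
    rw [neg_one_smul, sub_eq_add_neg]

theorem fderiv_arctan (v w : Fin 1 → ℝ) :
    fderiv ℝ (fun v : Fin 1 → ℝ => Real.arctan (v 0)) v w = (1 + v 0 ^ 2)⁻¹ * w 0 := by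
  have h1 : HasFDerivAt (fun v : Fin 1 → ℝ => Real.arctan (v 0))
      ((1 / (1 + v 0 ^ 2)) • (ContinuousLinearMap.proj (R := ℝ) (φ := fun _ : Fin 1 => ℝ) 0)) v :=
    (ContinuousLinearMap.proj (R := ℝ) (φ := fun _ : Fin 1 => ℝ) 0).hasFDerivAt.arctan
  rw [h1.fderiv]
  simp

theorem Rules.arctan (h : D.Rules) (M : D.Met) (f : D.X → ℝ) (hf : f ∈ D.sm M) :
    (fun x => Real.arctan (f x)) ∈ D.sm M ∧
    ∀ x, D.dl M (fun x => Real.arctan (f x)) x =
      (((1 + f x ^ 2)⁻¹ : ℝ) : ℂ) • D.dl M f x := by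
  have hF : ContDiff ℝ (⊤ : ℕ∞) (fun v : Fin 1 → ℝ => Real.arctan (v 0)) := by
    exact Real.contDiff_arctan.comp (by fun_prop)
  have hf' : ∀ i : Fin 1, (fun _ : Fin 1 => f) i ∈ D.sm M := fun _ => hf
  have h1 := h.sm_comp M 1 _ hF _ hf'
  have h2 := h.dl_comp M 1 _ hF _ hf'
  refine ⟨h1, fun x => ?_⟩
  rw [h2 x]
  simp only [fderiv_arctan, Fin.sum_univ_one]
  simp

/-! ### The hermitian product -/

theorem pr_swap (M : D.Met) (f g : D.X → ℝ) (x : D.X) :
    D.pr M g f x = star (D.pr M f g x) := by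
  unfold pr
  simp only [dotProduct, Pi.star_apply, star_sum, star_mul', star_star]
  exact Finset.sum_congr rfl fun i _ => mul_comm _ _

theorem pr_self (M : D.Met) (f : D.X → ℝ) (x : D.X) :
    D.pr M f f x = ((∑ i, ‖D.dl M f x i‖ ^ 2 : ℝ) : ℂ) := by
  unfold pr
  simp only [dotProduct, Pi.star_apply]
  push_cast
  refine Finset.sum_congr rfl fun i _ => ?_
  rw [Complex.star_def, Complex.mul_conj, Complex.normSq_eq_norm_sq]
  push_cast
  rfl

theorem pr_norm_sq_le (M : D.Met) (f g : D.X → ℝ) (x : D.X) :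
    ‖D.pr M f g x‖ ^ 2 ≤ (D.pr M f f x).re * (D.pr M g g x).re := by
  rw [pr_self, pr_self, Complex.ofReal_re, Complex.ofReal_re]
  have h1 : ‖D.pr M f g x‖ ≤ ∑ i, ‖D.dl M f x i‖ * ‖D.dl M g x i‖ := by
    unfold pr
    simp only [dotProduct, Pi.star_apply]
    refine (norm_sum_le _ _).trans (Finset.sum_le_sum fun i _ => ?_)
    rw [norm_mul, norm_star]
  calc ‖D.pr M f g x‖ ^ 2 ≤ (∑ i, ‖D.dl M f x i‖ * ‖D.dl M g x i‖) ^ 2 :=
        pow_le_pow_left₀ (norm_nonneg _) h1 2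
    _ ≤ (∑ i, ‖D.dl M f x i‖ ^ 2) * ∑ i, ‖D.dl M g x i‖ ^ 2 :=
        Finset.sum_mul_sq_le_sq_mul_sq _ _ _

theorem Rules.toRules (h : D.Rules) : D.toGeo.Rules where
  dist_self := h.dist_self
  dist_comm := h.dist_comm
  dist_tri := h.dist_tri
  dist_cont := h.dist_cont
  fin := h.fin
  sm_cont := h.sm_cont
  sm_bdd := h.sm_bdd
  sm_sub M f hf g hg := (h.dl_sub M f g hf hg).1
  sm_arctan M f hf := (h.arctan M f hf).1
  lap_cont M f hf := Complex.continuous_re.comp (h.trace_cont M f hf)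
  lap_bdd := h.trace_bdd
  hess_tame M f hf := ⟨h.hess_cont M f hf, h.hess_int M f hf⟩
  gr_comm M f g x := by
    change (D.pr M f g x).re = (D.pr M g f x).re
    rw [pr_swap M f g x]
    simp
  gr_sub M f hf g hg k hk x := by
    change (D.pr M (fun z => f z - g z) k x).re = (D.pr M f k x).re - (D.pr M g k x).re
    unfold pr
    rw [(h.dl_sub M f g hf hg).2.1 x, sub_dotProduct, Complex.sub_re]
  gr_nonneg M f x := by
    change 0 ≤ (D.pr M f f x).re
    rw [pr_self, Complex.ofReal_re]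
    positivity
  gr_bdd := h.pr_bdd
  hess_nonneg := h.hess_nonneg
  gr_cs M f hf g hg x := by
    change (D.pr M f g x).re ^ 2 ≤ (D.pr M f f x).re * (D.pr M g g x).re
    refine le_trans ?_ (pr_norm_sq_le M f g x)
    rw [← sq_abs]
    exact pow_le_pow_left₀ (abs_nonneg _) (Complex.abs_re_le_norm _) 2
  grJ_skew M f g x := by
    change (D.pr M f g x).im = - (D.pr M g f x).im
    rw [pr_swap M f g x]
    simp
  grJ_sub M f hf g hg k hk x := by
    change (D.pr M (fun z => f z - g z) k x).im = (D.pr M f k x).im - (D.pr M g k x).im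
    unfold pr
    rw [(h.dl_sub M f g hf hg).2.1 x, sub_dotProduct, Complex.sub_im]
  grJ_cs M f hf g hg x := by
    change (D.pr M f g x).im ^ 2 ≤ (D.pr M f f x).re * (D.pr M g g x).re
    refine le_trans ?_ (pr_norm_sq_le M f g x)
    rw [← sq_abs]
    exact pow_le_pow_left₀ (abs_nonneg _) (Complex.abs_im_le_norm _) 2
  gr_cont M f hf g hg := Complex.continuous_re.comp (h.pr_cont M f hf g hg)
  lap_sub M f hf g hg x := by
    change (D.lev M (fun z => f z - g z) x).trace.re =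
      (D.lev M f x).trace.re - (D.lev M g x).trace.re
    rw [(h.dl_sub M f g hf hg).2.2 x, Matrix.trace_sub, Complex.sub_re]
  gr_arctan M f hf g hg x := by
    change (D.pr M (fun z => Real.arctan (f z)) g x).re = (1 + f x ^ 2)⁻¹ * (D.pr M f g x).re
    unfold pr
    rw [(h.arctan M f hf).2 x, smul_dotProduct, smul_eq_mul, Complex.re_ofReal_mul]
  ibp := h.ibp
  lip := h.lip

end Geo2

end Pool.Agent.SYP
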