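import Pool.Agent.SYP.MFinal
import Pool.Agent.SYP.G2Rules
import Pool.Agent.SYP.G2Heat
import Pool.Agent.SYN.Core

/-!
# SYP/MCore : the analytic core for a semistable model
-/

set_option autoImplicit false

open MeasureTheory Set Filter
open scoped ENNReal Topology Matrix ComplexOrder

namespace Pool.Agent.SYP

namespace Model

variable {m : ℕ} {D : Geo2 m} {S : Model D} {A : ℝ}

/-- `Z⁻¹` is bounded by `G`. -/
theorem Facts.norm_inv_mulVec_sq_le (h : S.Facts A) (k : ℕ) (w : Fin m → ℂ) (hw : w ∈ S.U A k)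
    (v : Fin m → ℂ) : ∑ j, ‖((S.Z k w)⁻¹ *ᵥ v) j‖ ^ 2 ≤ S.G A k w * ‖v‖ ^ 2 := by
  have hA : 0 < A := by linarith [h.one_le]
  obtain ⟨hd1, -⟩ := h.det_Z k w hw
  have hd0 : 0 < ‖(S.Z k w).det‖ := lt_of_lt_of_le (by positivity) hd1
  have hv : ∑ j, ‖v j‖ ^ 2 ≤ m * ‖v‖ ^ 2 := by
    calc ∑ j, ‖v j‖ ^ 2 ≤ ∑ _j : Fin m, ‖v‖ ^ 2 :=
          Finset.sum_le_sum fun j _ => pow_le_pow_left₀ (norm_nonneg _) (norm_le_pi_norm v j) 2
      _ = m * ‖v‖ ^ 2 := by simp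
  have h1 : ∀ i, ‖((S.Z k w)⁻¹ *ᵥ v) i‖ ^ 2 ≤
      (A ^ 2 * ∑ j, ‖(S.Z k w).adjugate i j‖ ^ 2) * (m * ‖v‖ ^ 2) := by
    intro i
    have e : ((S.Z k w)⁻¹ *ᵥ v) i = ((S.Z k w).det)⁻¹ * ∑ j, (S.Z k w).adjugate i j * v j := by
      rw [Matrix.inv_def, Ring.inverse_eq_inv', Matrix.smul_mulVec, Pi.smul_apply, smul_eq_mul]
      rfl
    rw [e, norm_mul, mul_pow, norm_inv]
    have h2 : (‖(S.Z k w).det‖⁻¹) ^ 2 ≤ A ^ 2 := by
      refine pow_le_pow_left₀ (by positivity) ?_ 2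
      rw [inv_le_comm₀ hd0 hA]
      exact hd1
    have h3 : ‖∑ j, (S.Z k w).adjugate i j * v j‖ ^ 2 ≤
        (∑ j, ‖(S.Z k w).adjugate i j‖ ^ 2) * ∑ j, ‖v j‖ ^ 2 := by
      have h4 : ‖∑ j, (S.Z k w).adjugate i j * v j‖ ≤
          ∑ j, ‖(S.Z k w).adjugate i j‖ * ‖v j‖ := by
        refine (norm_sum_le _ _).trans (Finset.sum_le_sum fun j _ => ?_)
        rw [norm_mul]
      exact (pow_le_pow_left₀ (norm_nonneg _) h4 2).trans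
        (Finset.sum_mul_sq_le_sq_mul_sq _ _ _)
    have h5 : 0 ≤ ∑ j, ‖(S.Z k w).adjugate i j‖ ^ 2 := by positivity
    calc (‖(S.Z k w).det‖⁻¹) ^ 2 * ‖∑ j, (S.Z k w).adjugate i j * v j‖ ^ 2
        ≤ A ^ 2 * ((∑ j, ‖(S.Z k w).adjugate i j‖ ^ 2) * (m * ‖v‖ ^ 2)) := by
          refine mul_le_mul h2 (h3.trans (mul_le_mul_of_nonneg_left hv h5)) (by positivity)
            (by positivity)
      _ = _ := by ring
  calc ∑ i, ‖((S.Z k w)⁻¹ *ᵥ v) i‖ ^ 2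
      ≤ ∑ i, (A ^ 2 * ∑ j, ‖(S.Z k w).adjugate i j‖ ^ 2) * (m * ‖v‖ ^ 2) :=
        Finset.sum_le_sum fun i _ => h1 i
    _ = S.G A k w * ‖v‖ ^ 2 := by
        rw [G, if_pos hw, ← Finset.sum_mul, ← Finset.mul_sum]
        ring

/-- **The analytic core.** There is a constant `K` such that for every `r` and every large `k` the
metric is bounded by `K` on a ball of radius `r` in the logarithmic chart. -/
theorem Facts.core {B : ℝ} (hD : D.Rules) (hH : D.Heat B) (hG : D.toGeo.Regularity)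
    (h : S.Facts A) : ∃ (k₁ : ℕ) (K : ℝ), ∀ r : ℝ, 0 < r → ∀ᶠ k in atTop,
      ∃ w, Metric.ball w r ⊆ S.U A (k + k₁) ∧ ∀ u ∈ Metric.ball w r, ∀ v : Fin m → ℂ,
        ∑ j, ‖((S.Z (k + k₁) u)⁻¹ *ᵥ v) j‖ ^ 2 ≤ K * ‖v‖ ^ 2 := by
  obtain ⟨k₁, B', a, -, hF⟩ := h.toDegen hD 1 one_pos
  obtain ⟨K, hK⟩ := (S.toDegen A k₁).core hD.toRules (hH.toHeat hD) hG hF
  refine ⟨k₁, K, fun r hr => ?_⟩
  filter_upwards [hK r hr] with k hk
  obtain ⟨w, -, hw2, hw3⟩ := hk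
  refine ⟨w, hw2, fun u hu v => ?_⟩
  exact (h.norm_inv_mulVec_sq_le (k + k₁) u (hw2 hu) v).trans
    (mul_le_mul_of_nonneg_right (hw3 u hu) (by positivity))

end Model

end Pool.Agent.SYP
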