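import Pool.Agent.SYP.HK
import Pool.Agent.SYM.HermC

/-!
# SYP/SecondA : the metric and the volume form in the logarithmic chart
-/

set_option autoImplicit false

open MeasureTheory Set Filter Topology
open scoped Matrix

namespace Pool.Agent.SYP

open SYM (CV basisVec FlatTriple volDensity IsHKTripleOn LiouvilleTheorem period imagSpace)

namespace HKData

variable {n b : ℕ} {C : HKData n b} {Q : C.LogModel} {h : ℕ → C.HK} {A : Vec b}
  {N : Vec b → Vec b} {B : ℝ}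

theorem dot_star_I (x y : Fin (2 * n) → ℂ) :
    x ⬝ᵥ star (Complex.I • y) = -Complex.I * (x ⬝ᵥ star y) := by
  rw [star_smul, dotProduct_smul, smul_eq_mul, Complex.star_def, Complex.conj_I]

theorem LogModel.Facts.om_J_I (hF : Q.Facts h A N B) (k : ℕ) (w : CV n)
    (hw : w ∈ Q.mod.U B k) (u v : CV n) : Q.om k 1 w u (Complex.I • v) =
      (((Q.mod.Z k w)⁻¹ *ᵥ u) ⬝ᵥ star ((Q.mod.Z k w)⁻¹ *ᵥ v)).re := by
  rw [hF.om_J k w hw, Matrix.mulVec_smul, dot_star_I]
  simp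

/-- The metric in the chart. -/
theorem LogModel.Facts.om_J_self (hF : Q.Facts h A N B) (k : ℕ) (w : CV n)
    (hw : w ∈ Q.mod.U B k) (v : CV n) :
    Q.om k 1 w v (Complex.I • v) = ∑ j, ‖((Q.mod.Z k w)⁻¹ *ᵥ v) j‖ ^ 2 := by
  rw [hF.om_J_I k w hw, dotProduct, Complex.re_sum]
  refine Finset.sum_congr rfl fun j _ => ?_
  rw [Pi.star_apply, Complex.star_def, Complex.mul_conj, Complex.ofReal_re,
    Complex.normSq_eq_norm_sq]

/-- The volume form in the chart. -/
theorem LogModel.Facts.vol_low (hF : Q.Facts h A N B) (k : ℕ) (w : CV n)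
    (hw : w ∈ Q.mod.U B k) : B⁻¹ ^ 2 ≤ volDensity (fun c => Q.om k c w) := by
  have hB : 0 < B := lt_of_lt_of_le one_pos hF.facts.one_le
  have hd := hF.facts.det_Z k w hw
  have hd0 : 0 < ‖(Q.mod.Z k w).det‖ := lt_of_lt_of_le (inv_pos.2 hB) hd.1
  set Y : Fin (2 * n) → Fin (2 * n) → ℂ := fun j p => (Q.mod.Z k w)⁻¹ p j with hY
  have hrow : ∀ j, (Q.mod.Z k w)⁻¹ *ᵥ basisVec n j = Y j := by
    intro j
    rw [basisVec, Matrix.mulVec_single_one]
    rfl
  have hYdet : ‖(Matrix.of Y).det‖ = ‖(Q.mod.Z k w).det‖⁻¹ := by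
    have e : Matrix.of Y = ((Q.mod.Z k w)⁻¹)ᵀ := rfl
    rw [e, Matrix.det_transpose, Matrix.det_nonsing_inv, Ring.inverse_eq_inv', norm_inv]
  have hmat : (fun j l : Fin (2 * n) =>
      ((Q.om k 1 w (basisVec n j) (Complex.I • basisVec n l) : ℝ) : ℂ) +
        ((Q.om k 1 w (basisVec n j) (basisVec n l) : ℝ) : ℂ) * Complex.I) =
      (fun j l : Fin (2 * n) => ∑ p, Y l p * (starRingEnd ℂ) (Y j p)) := by
    funext j l
    rw [hF.om_J_I k w hw, hF.om_J k w hw, hrow, hrow]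
    have e : ∑ p, Y l p * (starRingEnd ℂ) (Y j p) = (starRingEnd ℂ) (Y j ⬝ᵥ star (Y l)) := by
      rw [dotProduct, map_sum]
      refine Finset.sum_congr rfl fun p _ => ?_
      rw [map_mul, Pi.star_apply, Complex.star_def, Complex.conj_conj, mul_comm]
    rw [e]
    apply Complex.ext <;> simp
  rw [volDensity, hmat]
  have e2 : ‖Matrix.det (fun j l : Fin (2 * n) => ∑ p, Y l p * (starRingEnd ℂ) (Y j p))‖ =
      ‖(Matrix.of Y).det‖ ^ 2 := by
    rw [← SYM.norm_det_gram, ← Matrix.det_transpose]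
    rfl
  rw [e2, hYdet]
  refine pow_le_pow_left₀ (inv_nonneg.2 hB.le) ?_ 2
  exact inv_anti₀ hd0 hd.2

end HKData

end Pool.Agent.SYP
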