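import Pool.Agent.LV31.Main
import Pool.Agent.SYP.SecondA
import Pool.Agent.SYP.MCore
import Pool.Agent.SYM.Second

/-!
# SYP/Second : from the two-sided bound on large balls of the chart to the Lagrangian torus
-/

set_option autoImplicit false

open MeasureTheory Set Filter Topology Module
open scoped Matrix

namespace Pool.Agent.SYP

open SYM (CV basisVec FlatTriple volDensity IsHKTripleOn LiouvilleTheorem period imagSpace
  imagSpace_sum const_le_of_period complex_of_lagrangian' finrank_CV finrank_imagSpace)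

namespace HKData

variable {n b : ℕ} {C : HKData n b}

/-- The core gives, on balls of the chart with radii tending to infinity, a bound for the metric;
since `ω_J` and `ω_K` have no periods on the tori of the chart, the limit is a constant
hyperkähler triple for which these tori are complex Lagrangian for `I`. -/
theorem LogModel.exists_torus (hC : C.Facts) (Q : C.LogModel) (h : ℕ → C.HK) (A : Vec b)
    (N : Vec b → Vec b) (B : ℝ) (hF : Q.Facts h A N B)
    (hres : ∀ k j l, Q.res k (C.cls (h k) 1) j l = 0 ∧ Q.res k (C.cls (h k) 2) j l = 0)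
    (a : Vec b) (ha : ∀ k j l, Q.res k a j l = 0) : ∃ k, C.LagTorus (h k) a := by
  obtain ⟨B₀, hB₀⟩ := hC.heat
  obtain ⟨k₁, K, hK⟩ := hF.facts.core hC.rules hB₀ hC.regularity
  have hex : ∀ j : ℕ, ∃ k w, Metric.ball w ((j : ℝ) + 1) ⊆ Q.mod.U B k ∧
      ∀ u ∈ Metric.ball w ((j : ℝ) + 1), ∀ v : CV n,
        ∑ i, ‖((Q.mod.Z k u)⁻¹ *ᵥ v) i‖ ^ 2 ≤ K * ‖v‖ ^ 2 := by
    intro j
    obtain ⟨k, w, h1, h2⟩ := (hK ((j : ℝ) + 1) (by positivity)).exists
    exact ⟨k + k₁, w, h1, h2⟩
  choose k w hU hG using hex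
  have hmem : ∀ j : ℕ, ∀ u ∈ Metric.ball (0 : CV n) ((j : ℝ) + 1),
      w j + u ∈ Metric.ball (w j) ((j : ℝ) + 1) := by
    intro j u hu
    rw [Metric.mem_ball, dist_eq_norm, add_sub_cancel_left]
    rwa [mem_ball_zero_iff] at hu
  have htri : ∀ j, IsHKTripleOn (Q.mod.U B j) (Q.om j) := fun j =>
    hC.chart_triple _ _ _ _ _ (hF.chart j)
  obtain ⟨o, ho, s, hs, hconv⟩ := Pool.Agent.LV31.liouville n K (B⁻¹ ^ 2)
    (by have := hF.facts.one_le; positivity) (fun j => (j : ℝ) + 1)
    (tendsto_atTop_add_const_right _ _ tendsto_natCast_atTop_atTop)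
    (fun j c u => Q.om (k j) c (w j + u))
    (fun j => (htri (k j)).translate (w j) _ (hU j))
    (fun j u hu v => by
      have h1 := hF.om_J_self (k j) _ (hU j (hmem j u hu)) v
      exact h1.le.trans (hG j _ (hmem j u hu) v))
    (fun j u hu => hF.vol_low (k j) _ (hU j (hmem j u hu)))
  -- closeness on the ball of radius 8
  have hclose : ∀ ε : ℝ, 0 < ε → ∃ j, Metric.ball (w j) 8 ⊆ Q.mod.U B (k j) ∧
      ∀ z ∈ Metric.ball (w j) 8, ∀ c u v, |Q.om (k j) c z u v - o c u v| ≤ ε * ‖u‖ * ‖v‖ := by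
    intro ε hε
    obtain ⟨j, hj1, hj2⟩ := ((hconv 8 ε hε).and (eventually_ge_atTop 8)).exists
    refine ⟨s j, ?_, fun z hz c u v => ?_⟩
    · refine Subset.trans (Metric.ball_subset_ball ?_) (hU (s j))
      have h1 : j ≤ s j := hs.id_le j
      have h2 : (8 : ℝ) ≤ (s j : ℝ) := by exact_mod_cast hj2.trans h1
      linarith
    · have h1 := hj1 (z - w (s j)) (by
        rw [mem_ball_zero_iff, ← dist_eq_norm]
        exact hz) c u v
      rwa [add_sub_cancel] at h1
  have hper : ∀ j : ℕ, Metric.ball (w j) 8 ⊆ Q.mod.U B (k j) → ∀ i l, i ≠ l →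
      period (Q.om (k j) 1) (w j) i l = 0 ∧ period (Q.om (k j) 2) (w j) i l = 0 := by
    intro j hj i l hil
    have hw : w j ∈ Q.mod.U B (k j) := hj (Metric.mem_ball_self (by norm_num))
    rw [hC.chart_period _ _ _ _ _ (hF.chart (k j)) 1 (w j) hw i l hil,
      hC.chart_period _ _ _ _ _ (hF.chart (k j)) 2 (w j) hw i l hil]
    exact hres (k j) i l
  -- the constant forms vanish on the tangent space of the torus
  have hzero : ∀ c : Fin 3, c = 1 ∨ c = 2 → ∀ i l : Fin (2 * n),
      o c (Complex.I • basisVec n i) (Complex.I • basisVec n l) = 0 := by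
    intro c hc i l
    by_cases hil : i = l
    · subst hil
      exact ho.self_zero c _
    · have hle : ∀ ε : ℝ, 0 < ε →
          |o c (Complex.I • basisVec n i) (Complex.I • basisVec n l)| ≤ ε := by
        intro ε hε
        obtain ⟨j, hj1, hj2⟩ := hclose ε hε
        refine const_le_of_period (τ := Q.om (k j) c) hil ?_ (fun z hz u v => hj2 z hz c u v) ?_
        · exact ((htri (k j)).smooth c _ _).continuousOn.mono hj1
        · rcases hc with rfl | rfl
          · exact (hper j hj1 i l hil).1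
          · exact (hper j hj1 i l hil).2
      have h0 : |o c (Complex.I • basisVec n i) (Complex.I • basisVec n l)| ≤ 0 :=
        le_of_forall_pos_le_add fun ε hε => by
          rw [zero_add]
          exact hle ε hε
      exact abs_nonpos_iff.1 h0
  obtain ⟨g, J, hsy, hp, hJ, hI, hJ1, hiso, hoJ⟩ := ho.bundle
  have hlag : ∀ c : Fin 3, c = 1 ∨ c = 2 → ∀ u ∈ imagSpace n, ∀ v ∈ imagSpace n,
      g (J c u) v = 0 := by
    intro c hc u hu v hv
    rw [imagSpace_sum hu, imagSpace_sum hv]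
    simp only [map_sum, LinearMap.sum_apply, map_smul, LinearMap.smul_apply]
    refine Finset.sum_eq_zero fun i _ => ?_
    rw [Finset.sum_eq_zero, smul_zero]
    intro l _
    rw [← hoJ, hzero c hc l i, smul_zero]
  have hIV : ∀ v ∈ imagSpace n, J 0 v ∈ imagSpace n :=
    complex_of_lagrangian' g hsy hp (J 0) (J 1) (J 2) (hJ 1) hI (imagSpace n)
      (by rw [finrank_CV, finrank_imagSpace]) (hlag 1 (Or.inl rfl)) (hlag 2 (Or.inr rfl))
  obtain ⟨ε, hε, htor⟩ := hC.torus o ho
    (fun u hu v hv => ⟨by rw [hoJ]; exact hlag 1 (Or.inl rfl) u hu v hv,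
      by rw [hoJ]; exact hlag 2 (Or.inr rfl) u hu v hv⟩)
    (fun u hu => ⟨J 0 u, hIV u hu, fun x => by
      rw [hoJ, hoJ, ← hJ1, hiso]⟩)
  obtain ⟨j, hj1, hj2⟩ := hclose ε hε
  exact ⟨k j, htor (h (k j)) (Q.mod.φ (k j)) (Q.mod.U B (k j)) (Q.om (k j)) (Q.res (k j)) (w j)
    (hF.chart (k j)) hj1 hj2 (hres (k j)) a (ha (k j))⟩

end HKData

end Pool.Agent.SYP
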