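import Pool.Agent.SYP.Pub
import Pool.Agent.SYP.Second
import Pool.Agent.SYM.LatMain

/-!
# SYP/Final : nef line bundles on compact hyperkähler manifolds are semiample
-/

set_option autoImplicit false

open MeasureTheory Set Filter Topology Module

namespace Pool.Agent.SYP

/-- a one-point metric space -/
noncomputable def dummyGeo (m : ℕ) : SYM.Geo m where
  X := PUnit
  Met := PUnit
  dist _ _ _ := 0
  vol _ := 0
  sm := ∅
  gr _ _ _ _ := 0
  grJ _ _ _ _ := 0
  lap _ _ _ := 0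
  hess _ _ _ := 0
  heat _ _ _ _ := 0
  flat _ _ _ := False
  ener _ := ∅

namespace Fam

variable {n b : ℕ} (C : Fam n b)

/-- the lattice data of the class, in the form used in `SYM.LatMain` -/
noncomputable def toSYM : SYM.Fam n b where
  q := C.q
  S := C.S
  I := C.I
  per := C.per
  kahler := C.kahler
  Semiample := C.Semiample
  LagTorus _ := False
  D := dummyGeo (2 * n)
  HK := C.M.HK
  cls := C.M.cls
  mem := C.mem
  met _ := PUnit.unit
  IsChart _ _ _ _ := False

variable {C}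

theorem LatticeAxioms.toSYM (h : C.LatticeAxioms) : C.toSYM.LatticeAxioms :=
  ⟨h.q_add, h.q_smul, h.symm, h.integral, h.signature⟩

theorem KahlerAxioms.toSYM (h : C.KahlerAxioms) : C.toSYM.KahlerAxioms :=
  ⟨h.wall, h.wall_bound, h.per_exists, h.per_pos, h.per_basis, h.kahler_nonempty, h.kahler_iff,
    h.period⟩

/-- the classes of `ω_J` and `ω_K` have no periods on the tori of the chart -/
theorem periods_zero {Q : C.M.LogModel} {h : ℕ → C.M.HK} {A A₀ α ω : Vec b}
    {B : ℝ} {y t : ℕ → ℝ} (hF : Q.Facts h A (C.nil α A₀) B)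
    (h1 : ∀ k, C.M.cls (h k) 1 = t k • A) (h2 : ∀ k, C.M.cls (h k) 2 = -C.orbIm α A₀ ω 0 (y k))
    (k : ℕ) (j l : Fin (2 * n)) :
    Q.res k (C.M.cls (h k) 1) j l = 0 ∧ Q.res k (C.M.cls (h k) 2) j l = 0 := by
  refine ⟨?_, ?_⟩
  · rw [h1, hF.res_smul, hF.res_A, mul_zero]
  · rw [h2, ← neg_one_smul ℝ, hF.res_smul, orbIm, hF.res_add, hF.res_smul, hF.res_smul, hF.res_N,
      hF.res_N]
    ring

/-- Nef line bundles with `q(L, L) = 0` on compact hyperkähler manifolds are semiample. -/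
theorem main (hC : C.Axioms) (i : C.I) (α : Vec b) (hα : IsIntegral α) (hα0 : α ≠ 0)
    (hαα : C.q α α = 0) (hnef : C.Nef i α) : C.Semiample i α := by
  obtain ⟨A, A₀, ω, j, y₀, h, y, t, intA, intA₀, αA, αA₀, AA₀, posA, posA₀, ωω, ωA, αω, nefj,
    nonproj, hprop, wall, top, hcls⟩ := C.toSYM.lat_main hC.toLatticeAxioms.toSYM
      hC.toKahlerAxioms.toSYM hC.yau hα hα0 hαα hnef
  have hm : ∀ k, C.mem (h k) = j := fun k => (hcls k).1
  have hc : ∀ k, 0 < t k ∧ C.M.cls (h k) 0 = C.orbRe α A₀ ω 0 (y k) ∧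
      C.M.cls (h k) 1 = t k • A ∧ C.M.cls (h k) 2 = -C.orbIm α A₀ ω 0 (y k) :=
    fun k => (hcls k).2
  obtain ⟨k₀, Q, B, hQ⟩ := hC.degeneration α A A₀ ω y₀ hα intA intA₀ hαα αA αA₀
    AA₀ posA posA₀ ωω ωA αω wall h y t top hc
  obtain ⟨k, hk⟩ := Q.exists_torus hC.metrics (fun k => h (k + k₀)) A _ B hQ
    (fun k j l => periods_zero hQ (y := fun k => y (k + k₀)) (t := fun k => t (k + k₀))
      (fun k => (hc (k + k₀)).2.2.1) (fun k => (hc (k + k₀)).2.2.2) k j l)
    A (fun k j l => hQ.res_A k j l)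
  obtain ⟨l, hl, hl0, hll, hlnef, hls⟩ := hC.greb_lehn_rollenske (h (k + k₀)) A hk
    (by rw [hm]; exact nonproj)
  rw [hm] at hlnef hls
  obtain ⟨p, r, hp, hr, hpr⟩ := hprop l hl hl0 hll hlnef
  have h1 : C.Semiample j ((p : ℝ) • l) := (hC.semiample_mul j l p hp hl).2 hls
  rw [hpr] at h1
  exact hC.matsushita i j α hα hα0 hαα hnef nefj ((hC.semiample_mul j α r hr hα).1 h1)

theorem q_nonneg_of_nef (hC : C.Axioms) (i : C.I) (a : Vec b) (ha : C.Nef i a) :
    0 ≤ C.q a a := by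
  have hcont : Continuous fun v : Vec b => C.q v v :=
    SYM.Lat.LData.continuous_q_self (C := C.toSYM.toLat hC.toLatticeAxioms.toSYM)
  have hcl : IsClosed {v : Vec b | 0 ≤ C.q v v} := isClosed_le continuous_const hcont
  obtain ⟨x, y, hxy⟩ := hC.per_exists i
  refine closure_minimal ?_ hcl ha
  intro A hA
  exact (((hC.kahler_iff i x y hxy A hA A).1 hA).2.1).le

/-- All nef line bundles on compact hyperkähler manifolds are semiample. -/
theorem semiample_of_nef (hC : C.Axioms) (i : C.I) (a : Vec b) (ha : IsIntegral a)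
    (hnef : C.Nef i a) : C.Semiample i a := by
  by_cases h0 : a = 0
  · rw [h0]
    exact hC.trivial i
  · rcases (q_nonneg_of_nef hC i a hnef).eq_or_lt with h1 | h1
    · exact main hC i a ha h0 h1.symm hnef
    · exact hC.base_point_free i a ha hnef h1

end Fam

end Pool.Agent.SYP
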