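import Pool.Agent.SYP.MDefs
import Pool.Agent.SYM.Triple

/-!
# SYP/HK : hyperkähler metrics of one class of varieties, logarithmic models with their periods

This is the metric half of the statement; `b` is the second Betti number and `2n` the dimension.
-/

set_option autoImplicit false

open MeasureTheory Set Filter Topology
open scoped Matrix

namespace Pool.Agent.SYP

open SYM (CV basisVec FlatTriple volDensity IsHKTripleOn period imagSpace)

namespace HKData

variable {n b : ℕ} (C : HKData n b)

/-- What is known on these metrics. -/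
structure Facts : Prop where
  rules : C.D.Rules
  heat : ∃ B, C.D.Heat B
  regularity : C.D.toGeo.Regularity
  chart_triple : ∀ h φ U om r, C.IsChart h φ U om r → IsHKTripleOn U om
  /-- the periods of the Kähler forms -/
  chart_period : ∀ h φ U om r, C.IsChart h φ U om r → ∀ c, ∀ w ∈ U, ∀ j l, j ≠ l →
    period (om c) w j l = r (C.cls h c) j l
  /-- McLean's theorem on deformations of special Lagrangian submanifolds, near a flat torus, and
  Wirtinger's equality: if in a chart the forms are close to a constant triple `o` for which the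
  torus `T = {Re w = Re w₀}` is a complex Lagrangian torus, and the classes of `ω_J` and `ω_K`
  restrict to zero on `T`, then there is a torus near `T` which is a complex Lagrangian submanifold
  of `(X, I)` -/
  torus : ∀ o : Fin 3 → CV n → CV n → ℝ, FlatTriple o →
    (∀ u ∈ imagSpace n, ∀ v ∈ imagSpace n, o 1 u v = 0 ∧ o 2 u v = 0) →
    (∀ u ∈ imagSpace n, ∃ v ∈ imagSpace n, ∀ x, o 0 u x = o 1 v (Complex.I • x)) →
    ∃ ε > 0, ∀ h φ U om r w₀, C.IsChart h φ U om r → Metric.ball w₀ 8 ⊆ U →
      (∀ w ∈ Metric.ball w₀ 8, ∀ c u v, |om c w u v - o c u v| ≤ ε * ‖u‖ * ‖v‖) →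
      (∀ j l, r (C.cls h 1) j l = 0 ∧ r (C.cls h 2) j l = 0) →
      ∀ a, (∀ j l, r a j l = 0) → C.LagTorus h a

/-- What holds on the degeneration, for fibres `(X, J)` of the hyperkähler structures `h k`,
polarised by `A`, with monodromy logarithm (a multiple of) `N`. -/
structure LogModel.Facts {C : HKData n b} (Q : C.LogModel) (h : ℕ → C.HK) (A : Vec b)
    (N : Vec b → Vec b) (B : ℝ) : Prop where
  facts : Q.mod.Facts B
  met : ∀ k, Q.mod.M k = C.met (h k)
  chart : ∀ k, C.IsChart (h k) (Q.mod.φ k) (Q.mod.U B k) (Q.om k) (Q.res k)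
  /-- the matrix `Z⁻¹` is the differential of the chart in the unitary frame of `(g, J)` -/
  om_J : ∀ k, ∀ w ∈ Q.mod.U B k, ∀ u v, Q.om k 1 w u v =
    -(((Q.mod.Z k w)⁻¹ *ᵥ u) ⬝ᵥ star ((Q.mod.Z k w)⁻¹ *ᵥ v)).im
  res_add : ∀ k x y j l, Q.res k (x + y) j l = Q.res k x j l + Q.res k y j l
  res_smul : ∀ k (c : ℝ) x j l, Q.res k (c • x) j l = c * Q.res k x j l
  /-- the polarisation is trivial near a point of the total space -/
  res_A : ∀ k j l, Q.res k A j l = 0
  /-- the tori of the chart are invariant under the monodromy up to isotopy -/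
  res_N : ∀ k x j l, Q.res k (N x) j l = 0

end HKData

end Pool.Agent.SYP
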