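import Pool.Agent.SYN.Degen
import Pool.Agent.SYM.V3P.GeoD

/-!
# SYP/Geo2 : Ricci-flat Kähler metrics, with differentials, complex Hessians and the heat kernel

`Geo2` is the primitive form of `SYN.Geo`: the products `⟨∇f, ∇h⟩`, `⟨J∇f, ∇h⟩`, the Laplacian, the
heat semigroup and the energy densities of `SYN.Geo` are defined from its data, see `Geo2.toGeo`.
-/

set_option autoImplicit false

open MeasureTheory Set Filter
open scoped ENNReal Topology Matrix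

namespace Pool.Agent.SYP

namespace Geo2

variable {m : ℕ} (D : Geo2 m)

/-- The data of `SYN.Geo`: the Laplacian is the trace of `dd^c`, the heat semigroup is the integral
against the heat kernel, the energy density of a holomorphic map is the trace of the pull-back of
the Fubini-Study form. -/
noncomputable def toGeo : SYN.Geo m where
  X := D.X
  Met := D.Met
  dist := D.dist
  vol := D.vol
  sm := D.sm
  gr M f h x := (D.pr M f h x).re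
  grJ M f h x := (D.pr M f h x).im
  lap M f x := (D.lev M f x).trace.re
  hess := D.hess
  heat M s f x := ∫ z, D.hk M s x z * f z ∂(D.vol M)
  flat := D.flat
  ener M := {e | ∃ T ∈ D.fs M, e = fun x => (T x).trace.re}

/-- Elementary rules. -/
structure Rules : Prop where
  dist_self : ∀ M x, D.dist M x x = 0
  dist_comm : ∀ M x y, D.dist M x y = D.dist M y x
  dist_tri : ∀ M x y z, D.dist M x z ≤ D.dist M x y + D.dist M y z
  dist_cont : ∀ M x, Continuous (fun z => D.dist M x z)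
  fin : ∀ M, IsFiniteMeasure (D.vol M)
  sm_cont : ∀ M, ∀ f ∈ D.sm M, Continuous f
  sm_bdd : ∀ M, ∀ f ∈ D.sm M, ∃ C, ∀ x, |f x| ≤ C
  pr_cont : ∀ M, ∀ f ∈ D.sm M, ∀ h ∈ D.sm M, Continuous (D.pr M f h)
  pr_bdd : ∀ M, ∀ f ∈ D.sm M, ∃ C, ∀ x, (D.pr M f f x).re ≤ C
  lev_herm : ∀ M, ∀ f ∈ D.sm M, ∀ x, (D.lev M f x).IsHermitian
  trace_cont : ∀ M, ∀ f ∈ D.sm M, Continuous (fun x => (D.lev M f x).trace)
  trace_bdd : ∀ M, ∀ f ∈ D.sm M, ∃ C, ∀ x, |(D.lev M f x).trace.re| ≤ C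
  det_cont : ∀ M, ∀ f ∈ D.sm M, ∀ c : ℝ,
    Continuous (fun x => ((c : ℂ) • (1 : Matrix (Fin m) (Fin m) ℂ) + D.lev M f x).det)
  hess_cont : ∀ M, ∀ f ∈ D.sm M, Continuous (D.hess M f)
  hess_int : ∀ M, ∀ f ∈ D.sm M, Integrable (D.hess M f) (D.vol M)
  hess_nonneg : ∀ M f x, 0 ≤ D.hess M f x
  /-- smooth functions of smooth functions are smooth -/
  sm_comp : ∀ M, ∀ (n : ℕ) (F : (Fin n → ℝ) → ℝ), ContDiff ℝ (⊤ : ℕ∞) F →
    ∀ f : Fin n → D.X → ℝ, (∀ i, f i ∈ D.sm M) → (fun x => F (fun i => f i x)) ∈ D.sm M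
  /-- chain rule, first derivatives -/
  dl_comp : ∀ M, ∀ (n : ℕ) (F : (Fin n → ℝ) → ℝ), ContDiff ℝ (⊤ : ℕ∞) F →
    ∀ f : Fin n → D.X → ℝ, (∀ i, f i ∈ D.sm M) → ∀ x, D.dl M (fun z => F (fun i => f i z)) x =
      ∑ i, ((fderiv ℝ F (fun i => f i x) (Pi.single i 1) : ℝ) : ℂ) • D.dl M (f i) x
  /-- chain rule, second derivatives -/
  lev_comp : ∀ M, ∀ (n : ℕ) (F : (Fin n → ℝ) → ℝ), ContDiff ℝ (⊤ : ℕ∞) F →
    ∀ f : Fin n → D.X → ℝ, (∀ i, f i ∈ D.sm M) → ∀ x, D.lev M (fun z => F (fun i => f i z)) x =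
      ∑ i, ((fderiv ℝ F (fun i => f i x) (Pi.single i 1) : ℝ) : ℂ) • D.lev M (f i) x +
      ∑ i, ∑ j, ((fderiv ℝ (fun v => fderiv ℝ F v (Pi.single j 1)) (fun i => f i x)
        (Pi.single i 1) : ℝ) : ℂ) • Matrix.vecMulVec (star (D.dl M (f i) x)) (D.dl M (f j) x)
  /-- integration by parts -/
  ibp : ∀ M, ∀ f ∈ D.sm M, ∀ h ∈ D.sm M,
    ∫ x, (D.pr M f h x).re ∂(D.vol M) = - ∫ x, f x * (D.lev M h x).trace.re ∂(D.vol M)
  /-- Stokes' theorem: `∫ (c ω + dd^c f)^m = c^m ∫ ω^m` if `dd^c f` is bounded -/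
  mass : ∀ M, ∀ f ∈ D.sm M, (∃ C, ∀ x i j, ‖D.lev M f x i j‖ ≤ C) → ∀ c : ℝ,
    ∫ x, ((c : ℂ) • (1 : Matrix (Fin m) (Fin m) ℂ) + D.lev M f x).det.re ∂(D.vol M) =
      c ^ m * (D.vol M).real univ
  /-- a gradient bound on a ball is a Lipschitz bound from the centre -/
  lip : ∀ M, ∀ f ∈ D.sm M, ∀ x r K, 0 ≤ K →
    (∀ z, D.dist M x z < r → (D.pr M f f z).re ≤ K ^ 2) →
    ∀ z, D.dist M x z < r → |f z - f x| ≤ K * D.dist M x z

/-- The heat kernel of a compact manifold with `Ric = 0` (or of a compact `RCD(0, 2m)` space):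
positivity, mass, symmetry, gradient bound (Bakry-Emery), integrated Bochner formula with the
spectral theorem, Harnack inequality and lower bound of Li-Yau, volume comparison of
Bishop-Gromov. -/
structure Heat (B : ℝ) : Prop where
  pos : 0 < B
  hk_cont : ∀ M s, 0 < s → Continuous (Function.uncurry (D.hk M s))
  hk_nonneg : ∀ M s, 0 < s → ∀ x z, 0 ≤ D.hk M s x z
  hk_bdd : ∀ M s, 0 < s → ∃ C, ∀ x z, D.hk M s x z ≤ C
  hk_symm : ∀ M s, 0 < s → ∀ x z, D.hk M s x z = D.hk M s z x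
  hk_mass : ∀ M s, 0 < s → ∀ x, ∫ z, D.hk M s x z ∂(D.vol M) = 1
  smooth : ∀ M s, 0 < s → ∀ f ∈ D.sm M, D.toGeo.heat M s f ∈ D.sm M
  lap : ∀ M s, 0 < s → ∀ f ∈ D.sm M, ∀ x,
    D.toGeo.lap M (D.toGeo.heat M s f) x = D.toGeo.heat M s (D.toGeo.lap M f) x
  near : ∀ M s, 0 < s → ∀ f ∈ D.sm M,
    ∫ x, |f x - D.toGeo.heat M s f x| ∂(D.vol M) ≤ s * ∫ x, |D.toGeo.lap M f x| ∂(D.vol M)
  grad : ∀ M s, 0 < s → ∀ f ∈ D.sm M, ∀ x,
    D.toGeo.gr M (D.toGeo.heat M s f) (D.toGeo.heat M s f) x ≤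
      D.toGeo.heat M s (D.toGeo.gr M f f) x
  bochner : ∀ M s, 0 < s → ∀ f ∈ D.sm M,
    ∫ x, D.hess M (D.toGeo.heat M s f) x ∂(D.vol M) ≤ s⁻¹ * ∫ x, D.toGeo.gr M f f x ∂(D.vol M)
  /-- Li-Yau: `p_s(z, ξ) ≤ B p_{2s}(x, ξ)` if `d(x, z)² ≤ s` -/
  harnack : ∀ M s, 0 < s → ∀ x z ξ, D.dist M x z ^ 2 ≤ s → D.hk M s z ξ ≤ B * D.hk M (2 * s) x ξ
  /-- Li-Yau: `p_{r²}(x, z) ≥ (B vol B(x, r))⁻¹` if `d(x, z) < r` -/
  lower : ∀ M r, 0 < r → ∀ x z, D.dist M x z < r →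
    1 ≤ B * (D.vol M).real (D.toGeo.ball M x r) * D.hk M (r ^ 2) x z
  bishop : ∀ M x r R, 0 < r → r ≤ R →
    (D.vol M).real (D.toGeo.ball M x R) ≤
      (R / r) ^ (2 * m) * (D.vol M).real (D.toGeo.ball M x r)
  upper : ∀ M x r, 0 < r → (D.vol M).real (D.toGeo.ball M x r) ≤ B * r ^ (2 * m)

end Geo2

end Pool.Agent.SYP
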