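import Pool.Agent.SYP.Pub
import Pool.Agent.SYM.V3P.HKP

/-!
# SYP/PubM : the published facts on a deformation class of compact hyperkähler manifolds

The same as `SYP/Pub`, with the facts on the metrics in the form of `SYM/V3P/HKP`: McLean's theorem
on deformations of special Lagrangian tori is not among them, it is proved (folder `MCL`).
-/

set_option autoImplicit false

open Filter

namespace Pool.Agent.SYP

namespace Fam

variable {n b : ℕ} (C : Fam n b)

/-- Ricci-flat metrics. -/
structure MetricAxiomsM : Prop where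
  metrics : C.M.FactsP
  /-- Yau's theorem, hyperkähler structures: `κ` is the class of `ω_I` and `σ_I = ω_J + i ω_K` -/
  yau : ∀ i x y κ, C.per i x y → κ ∈ C.kahler i → C.q x y = 0 → C.q x x = C.q κ κ →
    C.q y y = C.q κ κ → ∃ h, C.mem h = i ∧ C.M.cls h 0 = κ ∧ C.M.cls h 1 = x ∧ C.M.cls h 2 = y
  /-- A polarised degeneration of maximal type: `A` is a Kähler class on the members with period
  `exp(z N) ω`, `Im z ≥ y₀`, and `h k` are hyperkähler structures with `(X, J)` the member with
  `z = i y_k`, i.e. `σ_J = ω_K + i ω_I = i exp(i y_k N) ω`. By the theorems of Verbitsky and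
  Viehweg, Borel's extension theorem and semistable reduction these manifolds are the fibres of a
  projective semistable model, after a base change. -/
  degeneration : ∀ (α A A₀ ω : Vec b) (y₀ : ℝ), IsIntegral α → IsIntegral A → IsIntegral A₀ →
    C.q α α = 0 → C.q α A = 0 → C.q α A₀ = 0 → C.q A A₀ = 0 → 0 < C.q A A → 0 < C.q A₀ A₀ →
    C.q ω ω = 0 → C.q ω A = 0 → 0 < C.q α ω →
    (∀ u y, y₀ ≤ y → ∀ s ∈ C.S, C.q s A = 0 →
      ¬ C.Type11 (C.orbRe α A₀ ω u y) (C.orbIm α A₀ ω u y) s) →
    ∀ (h : ℕ → C.M.HK) (y t : ℕ → ℝ), Tendsto y atTop atTop →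
    (∀ k, 0 < t k ∧ C.M.cls (h k) 0 = C.orbRe α A₀ ω 0 (y k) ∧ C.M.cls (h k) 1 = t k • A ∧
      C.M.cls (h k) 2 = -C.orbIm α A₀ ω 0 (y k)) →
    ∃ (k₀ : ℕ) (Q : C.M.LogModel) (B : ℝ), Q.FactsP (fun k => h (k + k₀)) A (C.nil α A₀) B

/-- What is known on a deformation class of compact hyperkähler manifolds. -/
structure Published : Prop
    extends LatticeAxioms C, KahlerAxioms C, MetricAxiomsM C, FibrationAxioms C

end Fam

end Pool.Agent.SYP
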