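import Pool.Agent.SYP.Final
import Pool.Agent.SYP.PubM
import Pool.Agent.SYM.V3P.AdaptHK

/-!
# SYP/FinalM : the final theorem with McLean's theorem proved
-/

set_option autoImplicit false

namespace Pool.Agent.SYP

namespace Fam

variable {n b : ℕ} {C : Fam n b}

theorem Published.axioms (h : C.Published) : C.Axioms where
  toLatticeAxioms := h.toLatticeAxioms
  toKahlerAxioms := h.toKahlerAxioms
  toMetricAxioms :=
    { metrics := h.metrics.to
      yau := h.yau
      degeneration := by
        intro α A A₀ ω y₀ h1 h2 h3 h4 h5 h6 h7 h8 h9 h10 h11 h12 h13 g y t hy hc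
        obtain ⟨k₀, Q, B, hQ⟩ := h.degeneration α A A₀ ω y₀ h1 h2 h3 h4 h5 h6 h7 h8 h9 h10 h11 h12
          h13 g y t hy hc
        exact ⟨k₀, Q, B, hQ.to⟩ }
  toFibrationAxioms := h.toFibrationAxioms

end Fam

end Pool.Agent.SYP
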