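import Pool.Agent.SYP.G2Rules

/-!
# SYP/G2Sqrt : the function `√(1 + ∑ y_i²)`
-/

set_option autoImplicit false

open MeasureTheory Set Filter
open scoped ENNReal Topology Matrix

namespace Pool.Agent.SYP

namespace Geo2

variable {m : ℕ} {D : Geo2 m}

theorem sqrt_arg_pos {n : ℕ} (v : Fin n → ℝ) : 0 < 1 + ∑ i, v i ^ 2 := by positivity

theorem sqrt_contDiff (n : ℕ) :
    ContDiff ℝ (⊤ : ℕ∞) (fun v : Fin n → ℝ => Real.sqrt (1 + ∑ i, v i ^ 2)) := by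
  refine ContDiff.sqrt ?_ fun v => (sqrt_arg_pos v).ne'
  exact contDiff_const.add (ContDiff.sum fun i _ => (contDiff_apply ℝ ℝ i).pow 2)

theorem hasFDerivAt_sqrt {n : ℕ} (v : Fin n → ℝ) :
    HasFDerivAt (fun v : Fin n → ℝ => Real.sqrt (1 + ∑ i, v i ^ 2))
      (∑ i, (v i / Real.sqrt (1 + ∑ i, v i ^ 2)) •
        ContinuousLinearMap.proj (R := ℝ) (φ := fun _ : Fin n => ℝ) i) v := by
  have h : ∀ i ∈ (Finset.univ : Finset (Fin n)), HasFDerivAt (fun v : Fin n → ℝ => v i ^ 2)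
      ((2 * v i) • ContinuousLinearMap.proj (R := ℝ) (φ := fun _ : Fin n => ℝ) i) v := by
    intro i _
    have := ((ContinuousLinearMap.proj (R := ℝ)
      (φ := fun _ : Fin n => ℝ) i).hasFDerivAt (x := v)).pow 2
    simpa using this
  have h1 : HasFDerivAt (fun v : Fin n → ℝ => 1 + ∑ i, v i ^ 2)
      (∑ i, (2 * v i) • ContinuousLinearMap.proj (R := ℝ) (φ := fun _ : Fin n => ℝ) i) v :=
    (HasFDerivAt.fun_sum h).const_add 1
  have h2 := h1.sqrt (sqrt_arg_pos v).ne'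
  have e : (1 / (2 * Real.sqrt (1 + ∑ i, v i ^ 2))) • (∑ i, (2 * v i) •
      ContinuousLinearMap.proj (R := ℝ) (φ := fun _ : Fin n => ℝ) i) =
      ∑ i, (v i / Real.sqrt (1 + ∑ i, v i ^ 2)) •
        ContinuousLinearMap.proj (R := ℝ) (φ := fun _ : Fin n => ℝ) i := by
    rw [Finset.smul_sum]
    refine Finset.sum_congr rfl fun i _ => ?_
    rw [smul_smul]
    congr 1
    have : Real.sqrt (1 + ∑ i, v i ^ 2) ≠ 0 := (Real.sqrt_pos.2 (sqrt_arg_pos v)).ne'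
    field_simp
  rw [← e]
  exact h2

theorem fderiv_sqrt {n : ℕ} (v : Fin n → ℝ) (j : Fin n) :
    fderiv ℝ (fun v : Fin n → ℝ => Real.sqrt (1 + ∑ i, v i ^ 2)) v (Pi.single j 1) =
      v j / Real.sqrt (1 + ∑ i, v i ^ 2) := by
  rw [(hasFDerivAt_sqrt v).fderiv]
  simp [Pi.single_apply]

theorem fderiv_sqrt2 {n : ℕ} (v : Fin n → ℝ) (i j : Fin n) :
    fderiv ℝ (fun v : Fin n → ℝ => fderiv ℝ (fun v : Fin n → ℝ =>
      Real.sqrt (1 + ∑ i, v i ^ 2)) v (Pi.single j 1)) v (Pi.single i 1) =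
      ((if i = j then 1 else 0) - v i * v j / (1 + ∑ i, v i ^ 2)) /
        Real.sqrt (1 + ∑ i, v i ^ 2) := by
  have e : (fun v : Fin n → ℝ => fderiv ℝ (fun v : Fin n → ℝ =>
      Real.sqrt (1 + ∑ i, v i ^ 2)) v (Pi.single j 1)) =
      fun v : Fin n → ℝ => v j * (Real.sqrt (1 + ∑ i, v i ^ 2))⁻¹ := by
    funext v
    rw [fderiv_sqrt, div_eq_mul_inv]
  rw [e]
  have hS : Real.sqrt (1 + ∑ i, v i ^ 2) ≠ 0 := (Real.sqrt_pos.2 (sqrt_arg_pos v)).ne'
  have hp : HasFDerivAt (fun v : Fin n → ℝ => v j)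
      (ContinuousLinearMap.proj (R := ℝ) (φ := fun _ : Fin n => ℝ) j) v :=
    (ContinuousLinearMap.proj (R := ℝ) (φ := fun _ : Fin n => ℝ) j).hasFDerivAt
  have hi := (hasDerivAt_inv hS).comp_hasFDerivAt v (hasFDerivAt_sqrt v)
  have h := hp.mul hi
  have e2 : (fun v : Fin n → ℝ => v j * (Real.sqrt (1 + ∑ i, v i ^ 2))⁻¹) =
      ((fun v : Fin n → ℝ => v j) *
        ((fun y : ℝ => y⁻¹) ∘ fun v : Fin n → ℝ => Real.sqrt (1 + ∑ i, v i ^ 2))) := rfl
  rw [e2, h.fderiv]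
  have hsq : Real.sqrt (1 + ∑ i, v i ^ 2) ^ 2 = 1 + ∑ i, v i ^ 2 :=
    Real.sq_sqrt (sqrt_arg_pos v).le
  simp only [add_apply, smul_apply,
    sum_apply, ContinuousLinearMap.proj_apply, smul_eq_mul,
    Function.comp_apply, Pi.single_apply, mul_ite, mul_one, mul_zero, Finset.sum_ite_eq',
    Finset.mem_univ, if_true]
  rw [hsq]
  have hne : (1 + ∑ i, v i ^ 2) ≠ 0 := (sqrt_arg_pos v).ne'
  by_cases hij : i = j
  · subst hij
    simp only [if_true]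
    field_simp
    ring
  · rw [if_neg hij, if_neg (Ne.symm hij)]
    field_simp
    ring

theorem Rules.sqrt_comp (h : D.Rules) (M : D.Met) (n : ℕ)
    (y : Fin n → D.X → ℝ) (hy : ∀ i, y i ∈ D.sm M) :
    (fun x => Real.sqrt (1 + ∑ i, y i x ^ 2)) ∈ D.sm M ∧
    ∀ x, D.lev M (fun x => Real.sqrt (1 + ∑ i, y i x ^ 2)) x =
      ∑ i, ((y i x / Real.sqrt (1 + ∑ i, y i x ^ 2) : ℝ) : ℂ) • D.lev M (y i) x +
      ∑ i, ∑ j, ((((if i = j then 1 else 0) - y i x * y j x / (1 + ∑ i, y i x ^ 2)) /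
        Real.sqrt (1 + ∑ i, y i x ^ 2) : ℝ) : ℂ) •
          Matrix.vecMulVec (star (D.dl M (y i) x)) (D.dl M (y j) x) := by
  refine ⟨h.sm_comp M n _ (sqrt_contDiff n) y hy, fun x => ?_⟩
  have h1 := h.lev_comp M n _ (sqrt_contDiff n) y hy x
  refine h1.trans ?_
  simp only [fderiv_sqrt2]
  simp only [fderiv_sqrt]

theorem dl_norm_le (M : D.Met) (f : D.X → ℝ) (x : D.X) (C : ℝ) (hC : (D.pr M f f x).re ≤ C)
    (a : Fin m) : ‖D.dl M f x a‖ ≤ Real.sqrt C := by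
  refine Real.le_sqrt_of_sq_le (le_trans ?_ hC)
  rw [pr_self, Complex.ofReal_re]
  exact Finset.single_le_sum (f := fun i => ‖D.dl M f x i‖ ^ 2) (fun i _ => by positivity)
    (Finset.mem_univ a)

theorem Rules.sqrt_bdd (h : D.Rules) (M : D.Met) (n : ℕ)
    (y : Fin n → D.X → ℝ) (hy : ∀ i, y i ∈ D.sm M)
    (hb : ∀ i, ∃ C, ∀ x a b, ‖D.lev M (y i) x a b‖ ≤ C) :
    ∃ C, ∀ x a b, ‖D.lev M (fun x => Real.sqrt (1 + ∑ i, y i x ^ 2)) x a b‖ ≤ C := by
  choose C hC using hb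
  choose K hK using fun i => h.pr_bdd M (y i) (hy i)
  refine ⟨∑ i, C i + ∑ i, ∑ j, 2 * (Real.sqrt (K i) * Real.sqrt (K j)), fun x a b => ?_⟩
  rw [(h.sqrt_comp M n y hy).2 x, Matrix.add_apply, Matrix.sum_apply]
  set v : Fin n → ℝ := fun i => y i x with hv
  have hS0 : 0 < 1 + ∑ i, y i x ^ 2 := sqrt_arg_pos v
  have hS1 : 1 ≤ 1 + ∑ i, y i x ^ 2 := by
    have : 0 ≤ ∑ i, y i x ^ 2 := Finset.sum_nonneg fun i _ => sq_nonneg _
    linarith
  have hR1 : 1 ≤ Real.sqrt (1 + ∑ i, y i x ^ 2) := Real.one_le_sqrt.2 hS1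
  have hR0 : 0 < Real.sqrt (1 + ∑ i, y i x ^ 2) := by linarith
  have hyle : ∀ i, |y i x| ≤ Real.sqrt (1 + ∑ i, y i x ^ 2) := fun i => by
    refine Real.abs_le_sqrt ?_
    have := Finset.single_le_sum (f := fun i => y i x ^ 2) (fun i _ => sq_nonneg _)
      (Finset.mem_univ i)
    linarith
  refine (norm_add_le _ _).trans (add_le_add ?_ ?_)
  · refine (norm_sum_le _ _).trans (Finset.sum_le_sum fun i _ => ?_)
    rw [Matrix.smul_apply, smul_eq_mul, norm_mul, Complex.norm_real, Real.norm_eq_abs, abs_div,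
      abs_of_pos hR0]
    have h1 : |y i x| / Real.sqrt (1 + ∑ i, y i x ^ 2) ≤ 1 := by
      rw [div_le_one hR0]
      exact hyle i
    calc |y i x| / Real.sqrt (1 + ∑ i, y i x ^ 2) * ‖D.lev M (y i) x a b‖
        ≤ 1 * ‖D.lev M (y i) x a b‖ := mul_le_mul_of_nonneg_right h1 (norm_nonneg _)
      _ ≤ C i := by rw [one_mul]; exact hC i x a b
  · rw [Matrix.sum_apply]
    refine (norm_sum_le _ _).trans (Finset.sum_le_sum fun i _ => ?_)
    rw [Matrix.sum_apply]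
    refine (norm_sum_le _ _).trans (Finset.sum_le_sum fun j _ => ?_)
    rw [Matrix.smul_apply, smul_eq_mul, norm_mul, Complex.norm_real, Real.norm_eq_abs, abs_div,
      abs_of_pos hR0, Matrix.vecMulVec_apply, norm_mul, Pi.star_apply, norm_star]
    have hij : |y i x * y j x / (1 + ∑ i, y i x ^ 2)| ≤ 1 := by
      rw [abs_div, abs_of_pos hS0, div_le_one hS0, abs_mul]
      calc |y i x| * |y j x| ≤ Real.sqrt (1 + ∑ i, y i x ^ 2) *
            Real.sqrt (1 + ∑ i, y i x ^ 2) :=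
            mul_le_mul (hyle i) (hyle j) (abs_nonneg _) hR0.le
        _ = _ := Real.mul_self_sqrt hS0.le
    have hc : |(if i = j then (1 : ℝ) else 0) - y i x * y j x / (1 + ∑ i, y i x ^ 2)| ≤ 2 := by
      refine (abs_sub _ _).trans ?_
      have : |if i = j then (1 : ℝ) else 0| ≤ 1 := by split_ifs <;> simp
      linarith
    have hc2 : |(if i = j then (1 : ℝ) else 0) - y i x * y j x / (1 + ∑ i, y i x ^ 2)| /
        Real.sqrt (1 + ∑ i, y i x ^ 2) ≤ 2 := by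
      rw [div_le_iff₀ hR0]
      linarith
    exact mul_le_mul hc2 (mul_le_mul (dl_norm_le M (y i) x (K i) (hK i x) a)
      (dl_norm_le M (y j) x (K j) (hK j x) b) (norm_nonneg _) (Real.sqrt_nonneg _))
      (by positivity) (by norm_num)

end Geo2

end Pool.Agent.SYP
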