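import Pool.Agent.SYP.MDefs

/-!
# SYP/MBox : the core of the logarithmic chart
-/

set_option autoImplicit false

open MeasureTheory Set Filter
open scoped ENNReal Topology Matrix ComplexOrder

namespace Pool.Agent.SYP

/-- a rectangle in `ℂ` -/
def rect (a b c d : ℝ) : Set ℂ := {z | z.re ∈ Icc a b ∧ z.im ∈ Icc c d}

theorem rect_meas (a b c d : ℝ) : MeasurableSet (rect a b c d) := by
  have h1 : MeasurableSet (Complex.re ⁻¹' Icc a b) := Complex.measurable_re measurableSet_Icc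
  have h2 : MeasurableSet (Complex.im ⁻¹' Icc c d) := Complex.measurable_im measurableSet_Icc
  exact h1.inter h2

theorem rect_vol (a b c d : ℝ) (hab : a ≤ b) :
    volume (rect a b c d) = ENNReal.ofReal ((b - a) * (d - c)) := by
  have h := Complex.volume_preserving_equiv_real_prod.measure_preimage_equiv
    (Icc a b ×ˢ Icc c d)
  have e : Complex.measurableEquivRealProd ⁻¹' (Icc a b ×ˢ Icc c d) = rect a b c d := rfl
  rw [e] at h
  rw [h, Measure.volume_eq_prod, Measure.prod_prod, Real.volume_Icc, Real.volume_Icc,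
    ENNReal.ofReal_mul (by linarith)]

theorem pi_rect_vol (m : ℕ) (a b c d : ℝ) (hab : a ≤ b) (hcd : c ≤ d) :
    volume (Set.pi univ fun _ : Fin m => rect a b c d) =
      ENNReal.ofReal (((b - a) * (d - c)) ^ m) := by
  rw [volume_pi_pi]
  simp only [rect_vol a b c d hab, Finset.prod_const, Finset.card_univ, Fintype.card_fin]
  rw [ENNReal.ofReal_pow (mul_nonneg (by linarith) (by linarith))]

theorem box_eq (m : ℕ) (L : ℝ) : box m L = Set.pi univ fun _ : Fin m =>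
    rect (-(L / (m + 1)) - L / (2 * (m + 1) ^ 2)) (-(L / (m + 1)) + L / (2 * (m + 1) ^ 2)) 1 5 := by
  ext w
  constructor
  · intro h i _
    obtain ⟨h1, h3⟩ := h i
    rw [abs_le] at h1
    exact ⟨⟨by linarith [h1.1], by linarith [h1.2]⟩, h3⟩
  · intro h i
    obtain ⟨⟨h1, h2⟩, h3⟩ := h i (mem_univ i)
    refine ⟨?_, h3⟩
    rw [abs_le]
    exact ⟨by linarith, by linarith⟩

theorem box_meas (m : ℕ) (L : ℝ) : MeasurableSet (box m L) := by
  rw [box_eq]
  exact MeasurableSet.univ_pi fun _ => rect_meas _ _ _ _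

theorem box_vol (m : ℕ) (L : ℝ) (hL : 0 ≤ L) :
    ENNReal.ofReal ((4 / (m + 1) ^ 2) ^ m * L ^ m) ≤ volume (box m L) := by
  have h0 : 0 ≤ L / (2 * ((m : ℝ) + 1) ^ 2) := by positivity
  rw [box_eq, pi_rect_vol _ _ _ _ _ (by linarith) (by norm_num), ← mul_pow]
  refine ENNReal.ofReal_le_ofReal (le_of_eq ?_)
  congr 1
  field_simp
  ring

theorem mem_thick {m : ℕ} {L : ℝ} {w : Fin m → ℂ}
    (hw : w ∈ Metric.thickening 1 (box m L)) (i : Fin m) :
    |(w i).re + L / (m + 1)| < L / (2 * (m + 1) ^ 2) + 1 ∧ (w i).im ∈ Ioo (0 : ℝ) 6 := by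
  obtain ⟨v, hv, hd⟩ := Metric.mem_thickening_iff.1 hw
  have h1 : ‖w i - v i‖ < 1 := by
    rw [dist_eq_norm] at hd
    exact lt_of_le_of_lt (norm_le_pi_norm (w - v) i) hd
  have h2 := lt_of_le_of_lt (Complex.abs_re_le_norm _) h1
  have h3 := lt_of_le_of_lt (Complex.abs_im_le_norm _) h1
  rw [Complex.sub_re] at h2
  rw [Complex.sub_im] at h3
  obtain ⟨h4, h5, h6⟩ := hv i
  rw [abs_lt] at h2 h3
  rw [abs_le] at h4
  refine ⟨?_, ?_, ?_⟩
  · rw [abs_lt]
    constructor <;> linarith [h2.1, h2.2, h4.1, h4.2]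
  · linarith [h3.1]
  · linarith [h3.2]

theorem box_thick_vol (m : ℕ) (L : ℝ) (hL : 1 ≤ L) :
    volume (Metric.thickening 1 (box m L)) ≤ ENNReal.ofReal (18 ^ m * L ^ m) := by
  have hm : (0 : ℝ) ≤ m := Nat.cast_nonneg m
  have h0 : 0 ≤ L / (2 * ((m : ℝ) + 1) ^ 2) := by positivity
  have hsub : Metric.thickening 1 (box m L) ⊆ Set.pi univ fun _ : Fin m =>
      rect (-(L / (m + 1)) - (L / (2 * (m + 1) ^ 2) + 1))
        (-(L / (m + 1)) + (L / (2 * (m + 1) ^ 2) + 1)) 0 6 := by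
    intro w hw i _
    obtain ⟨h1, h2, h3⟩ := mem_thick hw i
    rw [abs_lt] at h1
    exact ⟨⟨by linarith [h1.1], by linarith [h1.2]⟩, h2.le, h3.le⟩
  refine (measure_mono hsub).trans ?_
  rw [pi_rect_vol _ _ _ _ _ (by linarith) (by norm_num), ← mul_pow]
  refine ENNReal.ofReal_le_ofReal (pow_le_pow_left₀ ?_ ?_ m)
  · have : (0 : ℝ) ≤ L / (2 * ((m : ℝ) + 1) ^ 2) + 1 := by linarith
    nlinarith
  · have h1 : L / (2 * ((m : ℝ) + 1) ^ 2) ≤ L / 2 := by
      refine div_le_div_of_nonneg_left (by linarith) (by norm_num) ?_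
      nlinarith
    nlinarith

theorem box_thick_im (m : ℕ) (L : ℝ) (w : Fin m → ℂ) (hw : w ∈ Metric.thickening 1 (box m L))
    (i : Fin m) : (w i).im ∈ Ioo 0 (2 * Real.pi) := by
  obtain ⟨-, h2, h3⟩ := mem_thick hw i
  have := Real.pi_gt_three
  exact ⟨h2, by linarith⟩

theorem box_deep (m : ℕ) (L r : ℝ) (hL : 0 ≤ L) (w w' : Fin m → ℂ) (hw : w ∈ box m L)
    (hr : w' ∈ Metric.ball w r) : (∀ i, (w' i).re ≤ -(L / (2 * (m + 1))) + r) ∧
      L / (2 * (m + 1)) - m * r ≤ L + ∑ i, (w' i).re := by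
  have hm : (0 : ℝ) ≤ m := Nat.cast_nonneg m
  have h1 : ∀ i, |(w' i).re - (w i).re| < r := by
    intro i
    rw [Metric.mem_ball, dist_eq_norm] at hr
    have h2 := lt_of_le_of_lt (norm_le_pi_norm (w' - w) i) hr
    have h3 := lt_of_le_of_lt (Complex.abs_re_le_norm _) h2
    rwa [Pi.sub_apply, Complex.sub_re] at h3
  have h2 : ∀ i, |(w i).re + L / (m + 1)| ≤ L / (2 * (m + 1) ^ 2) := fun i => (hw i).1
  have e1 : L / ((m : ℝ) + 1) = L / (2 * (m + 1)) + L / (2 * (m + 1)) := by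
    field_simp
    ring
  have e2 : L / (2 * ((m : ℝ) + 1) ^ 2) ≤ L / (2 * (m + 1)) := by
    refine div_le_div_of_nonneg_left hL (by positivity) ?_
    nlinarith
  refine ⟨fun i => ?_, ?_⟩
  · have h3 := (abs_lt.1 (h1 i)).2
    have h4 := (abs_le.1 (h2 i)).2
    linarith
  · have h3 : ∀ i, -(L / (m + 1)) - L / (2 * (m + 1) ^ 2) - r ≤ (w' i).re := by
      intro i
      have h3 := (abs_lt.1 (h1 i)).1
      have h4 := (abs_le.1 (h2 i)).1
      linarith
    have h4 : m * (-(L / (m + 1)) - L / (2 * (m + 1) ^ 2) - r) ≤ ∑ i, (w' i).re := by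
      calc m * (-(L / (m + 1)) - L / (2 * (m + 1) ^ 2) - r)
          = ∑ _i : Fin m, (-(L / (m + 1)) - L / (2 * (m + 1) ^ 2) - r) := by
            rw [Finset.sum_const, Finset.card_univ, Fintype.card_fin, nsmul_eq_mul]
        _ ≤ _ := Finset.sum_le_sum fun i _ => h3 i
    have h5 : L / (2 * (m + 1)) ≤ L + m * (-(L / (m + 1)) - L / (2 * (m + 1) ^ 2)) := by
      have e3 : L + m * (-(L / (m + 1)) - L / (2 * (m + 1) ^ 2)) - L / (2 * (m + 1)) =
          L / (2 * (m + 1) ^ 2) := by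
        field_simp
        ring
      have : 0 ≤ L / (2 * ((m : ℝ) + 1) ^ 2) := by positivity
      linarith
    linarith

end Pool.Agent.SYP
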