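import Pool.Agent.SYP.MDefs

/-!
# SYP/MChart : the logarithmic chart, integrals and lengths
-/

set_option autoImplicit false

open MeasureTheory Set Filter
open scoped ENNReal Topology Matrix ComplexOrder

namespace Pool.Agent.SYP

namespace Model

variable {m : ℕ} {D : Geo2 m} {S : Model D} {A : ℝ}

private theorem isOpen_U (A : ℝ) (k : ℕ) : IsOpen (S.U A k) := by
  have h1 : IsOpen {w : Fin m → ℂ | ∀ i, (w i).re < -A} := by
    simp only [ofPred_forall]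
    exact isOpen_iInter_of_finite fun i =>
      isOpen_lt (Complex.continuous_re.comp (continuous_apply i)) continuous_const
  have h2 : IsOpen {w : Fin m → ℂ | A < S.L k + ∑ i, (w i).re} :=
    isOpen_lt continuous_const (continuous_const.add
      (continuous_finsetSum _ fun i _ => Complex.continuous_re.comp (continuous_apply i)))
  exact h1.inter h2

private theorem isOpen_strip : IsOpen {w : Fin m → ℂ | ∀ i, (w i).im ∈ Ioo 0 (2 * Real.pi)} := by
  simp only [ofPred_forall]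
  exact isOpen_iInter_of_finite fun i =>
    isOpen_Ioo.preimage (Complex.continuous_im.comp (continuous_apply i))

private theorem pull_core (h : S.Facts A) (k : ℕ) (W : Set (Fin m → ℂ)) (hW : W ⊆ S.U A k)
    (hi : ∀ w ∈ W, ∀ i, (w i).im ∈ Ioo 0 (2 * Real.pi)) (F : D.X → ℝ≥0∞) (hF : Measurable F) :
    ∫⁻ w in W, F (S.φ k w) ≤ ENNReal.ofReal (A ^ 2) * ∫⁻ x, F x ∂(D.vol (S.M k)) := by
  have hA : 1 ≤ A := h.one_le
  have hA0 : (0 : ℝ) < A := by linarith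
  have hms : MeasurableSet (S.U A k ∩ {w : Fin m → ℂ | ∀ i, (w i).im ∈ Ioo 0 (2 * Real.pi)}) :=
    ((isOpen_U A k).inter isOpen_strip).measurableSet
  calc ∫⁻ w in W, F (S.φ k w)
      ≤ ∫⁻ w in S.U A k ∩ {w : Fin m → ℂ | ∀ i, (w i).im ∈ Ioo 0 (2 * Real.pi)},
          F (S.φ k w) := lintegral_mono_set fun w hw => ⟨hW hw, hi w hw⟩
    _ ≤ ∫⁻ w in S.U A k ∩ {w : Fin m → ℂ | ∀ i, (w i).im ∈ Ioo 0 (2 * Real.pi)},
          ENNReal.ofReal (A ^ 2) *
            (ENNReal.ofReal ((‖(S.Z k w).det‖ ^ 2)⁻¹) * F (S.φ k w)) := by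
        refine setLIntegral_mono' hms fun w hw => ?_
        have hd := h.det_Z k w hw.1
        have hd0 : 0 < ‖(S.Z k w).det‖ := lt_of_lt_of_le (inv_pos.2 hA0) hd.1
        rw [← mul_assoc, ← ENNReal.ofReal_mul (by positivity)]
        have h1 : 1 ≤ A ^ 2 * (‖(S.Z k w).det‖ ^ 2)⁻¹ := by
          rw [← div_eq_mul_inv, le_div_iff₀ (by positivity), one_mul]
          exact pow_le_pow_left₀ hd0.le hd.2 2
        calc F (S.φ k w) = 1 * F (S.φ k w) := (one_mul _).symm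
          _ ≤ _ := by
            gcongr
            rw [← ENNReal.ofReal_one]
            exact ENNReal.ofReal_le_ofReal h1
    _ = ENNReal.ofReal (A ^ 2) *
          ∫⁻ w in S.U A k ∩ {w : Fin m → ℂ | ∀ i, (w i).im ∈ Ioo 0 (2 * Real.pi)},
            ENNReal.ofReal ((‖(S.Z k w).det‖ ^ 2)⁻¹) * F (S.φ k w) :=
        lintegral_const_mul' _ _ ENNReal.ofReal_ne_top
    _ ≤ _ := by gcongr; exact h.cov k F hF

theorem Facts.pull (h : S.Facts A) (k : ℕ) (W : Set (Fin m → ℂ)) (hW : W ⊆ S.U A k)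
    (hi : ∀ w ∈ W, ∀ i, (w i).im ∈ Ioo 0 (2 * Real.pi)) (f : D.X → ℝ)
    (hf : D.toGeo.Tame (S.M k) f) (h0 : ∀ x, 0 ≤ f x) :
    ∫⁻ w in W, ENNReal.ofReal (f (S.φ k w)) ≤
      ENNReal.ofReal (A ^ 2 * ∫ x, f x ∂(D.vol (S.M k))) := by
  have hc : Continuous f := hf.1
  have hI : Integrable f (D.vol (S.M k)) := hf.2
  have h1 := pull_core h k W hW hi (fun x => ENNReal.ofReal (f x))
    (hc.measurable.ennreal_ofReal)
  rw [ENNReal.ofReal_mul (by positivity),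
    ofReal_integral_eq_lintegral_ofReal hI (Eventually.of_forall h0)]
  exact h1

theorem Facts.push (h : S.Facts A) (k : ℕ) (W : Set (Fin m → ℂ)) (hW : W ⊆ S.U A k)
    (hi : ∀ w ∈ W, ∀ i, (w i).im ∈ Ioo 0 (2 * Real.pi)) (s : Set D.X) (hs : MeasurableSet s) :
    volume (W ∩ S.φ k ⁻¹' s) ≤ ENNReal.ofReal (A ^ 2) * D.vol (S.M k) s := by
  have h1 := pull_core h k W hW hi (s.indicator 1) (measurable_one.indicator hs)
  rw [lintegral_indicator_one hs] at h1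
  have hm : MeasurableSet (S.φ k ⁻¹' s) := (h.φ_meas k) hs
  have h2 : ∫⁻ w in W, (s.indicator (1 : D.X → ℝ≥0∞)) (S.φ k w) = volume (W ∩ S.φ k ⁻¹' s) := by
    have : (fun w => (s.indicator (1 : D.X → ℝ≥0∞)) (S.φ k w)) =
        (S.φ k ⁻¹' s).indicator 1 := by
      funext w
      by_cases hw : S.φ k w ∈ s
      · rw [Set.indicator_of_mem hw, Set.indicator_of_mem (show w ∈ S.φ k ⁻¹' s from hw)]
        rfl
      · rw [Set.indicator_of_notMem hw, Set.indicator_of_notMem (show w ∉ S.φ k ⁻¹' s from hw)]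
    rw [this, lintegral_indicator_one hm, Measure.restrict_apply hm, Set.inter_comm]
  rwa [h2] at h1

theorem G_nonneg (k : ℕ) (w : Fin m → ℂ) : 0 ≤ S.G A k w := by
  unfold G
  split
  · positivity
  · exact le_rfl

private theorem sum_adj (Z : Matrix (Fin m) (Fin m) ℂ) :
    ∑ i, ∑ j, ‖Z.adjugate i j‖ ^ 2 = ((Z * Zᴴ).adjugate).trace.re := by
  rw [Matrix.adjugate_mul_distrib, ← Matrix.adjugate_conjTranspose]
  simp only [Matrix.trace, Matrix.diag, Matrix.mul_apply, Matrix.conjTranspose_apply,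
    Complex.re_sum]
  rw [Finset.sum_comm]
  refine Finset.sum_congr rfl fun i _ => Finset.sum_congr rfl fun j _ => ?_
  rw [← Complex.normSq_eq_norm_sq, ← Complex.ofReal_re (Complex.normSq _),
    Complex.normSq_eq_conj_mul_self]
  rfl

theorem Facts.G_meas (h : S.Facts A) (k : ℕ) : Measurable (S.G A k) := by
  classical
  have h1 : S.G A k = (S.U A k).piecewise
      (fun w => m * A ^ 2 * ((S.Z k w * (S.Z k w)ᴴ).adjugate).trace.re) (fun _ => 0) := by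
    funext w
    by_cases hw : w ∈ S.U A k
    · rw [Set.piecewise_eq_of_mem _ _ _ hw, ← sum_adj]
      simp only [G, if_pos hw]
    · rw [Set.piecewise_eq_of_notMem _ _ _ hw]
      simp only [G, if_neg hw]
  rw [h1]
  refine ContinuousOn.measurable_piecewise ?_ continuousOn_const (isOpen_U A k).measurableSet
  refine ContinuousOn.mul continuousOn_const ?_
  have h2 : Continuous fun B : Matrix (Fin m) (Fin m) ℂ => (B.adjugate).trace.re :=
    Complex.continuous_re.comp (continuous_id.matrix_adjugate.matrix_trace)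
  exact h2.comp_continuousOn (h.Z_cont k)

private theorem len_core (h : S.Facts A) (k : ℕ) (w v : Fin m → ℂ) (hw : w ∈ S.U A k) :
    Real.sqrt (∑ j, ‖((S.Z k w)⁻¹ *ᵥ v) j‖ ^ 2) ≤ ‖v‖ * Real.sqrt (S.G A k w) := by
  have hA0 : (0 : ℝ) < A := by linarith [h.one_le]
  have hd := h.det_Z k w hw
  have hd0 : 0 < ‖(S.Z k w).det‖ := lt_of_lt_of_le (inv_pos.2 hA0) hd.1
  have hdi : ‖(S.Z k w).det‖⁻¹ ≤ A := by
    rw [inv_le_comm₀ hd0 hA0]; exact hd.1
  have hv : ∑ i, ‖v i‖ ^ 2 ≤ m * ‖v‖ ^ 2 := by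
    calc ∑ i, ‖v i‖ ^ 2 ≤ ∑ _i : Fin m, ‖v‖ ^ 2 :=
          Finset.sum_le_sum fun i _ => pow_le_pow_left₀ (norm_nonneg _) (norm_le_pi_norm v i) 2
      _ = m * ‖v‖ ^ 2 := by simp
  have hj : ∀ j, ‖((S.Z k w)⁻¹ *ᵥ v) j‖ ^ 2 ≤
      A ^ 2 * ((∑ i, ‖(S.Z k w).adjugate j i‖ ^ 2) * (m * ‖v‖ ^ 2)) := by
    intro j
    have e : ((S.Z k w)⁻¹ *ᵥ v) j =
        (S.Z k w).det⁻¹ * ∑ i, (S.Z k w).adjugate j i * v i := by
      rw [Matrix.inv_def, Matrix.smul_mulVec, Pi.smul_apply, Ring.inverse_eq_inv']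
      rfl
    rw [e, norm_mul, mul_pow, norm_inv]
    have hs : ‖∑ i, (S.Z k w).adjugate j i * v i‖ ^ 2 ≤
        (∑ i, ‖(S.Z k w).adjugate j i‖ ^ 2) * (m * ‖v‖ ^ 2) := by
      calc ‖∑ i, (S.Z k w).adjugate j i * v i‖ ^ 2
          ≤ (∑ i, ‖(S.Z k w).adjugate j i‖ * ‖v i‖) ^ 2 := by
            refine pow_le_pow_left₀ (norm_nonneg _) ?_ 2
            refine (norm_sum_le _ _).trans (le_of_eq ?_)
            exact Finset.sum_congr rfl fun i _ => norm_mul _ _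
        _ ≤ (∑ i, ‖(S.Z k w).adjugate j i‖ ^ 2) * ∑ i, ‖v i‖ ^ 2 :=
            Finset.sum_mul_sq_le_sq_mul_sq _ _ _
        _ ≤ _ := by gcongr
    have h1 : ‖(S.Z k w).det‖⁻¹ ^ 2 ≤ A ^ 2 :=
      pow_le_pow_left₀ (by positivity) hdi 2
    exact mul_le_mul h1 hs (by positivity) (by positivity)
  have hsum : ∑ j, ‖((S.Z k w)⁻¹ *ᵥ v) j‖ ^ 2 ≤ ‖v‖ ^ 2 * S.G A k w := by
    calc ∑ j, ‖((S.Z k w)⁻¹ *ᵥ v) j‖ ^ 2
        ≤ ∑ j, A ^ 2 * ((∑ i, ‖(S.Z k w).adjugate j i‖ ^ 2) * (m * ‖v‖ ^ 2)) :=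
          Finset.sum_le_sum fun j _ => hj j
      _ = ‖v‖ ^ 2 * S.G A k w := by
          rw [G, if_pos hw, ← Finset.mul_sum, ← Finset.sum_mul]
          ring
  calc Real.sqrt (∑ j, ‖((S.Z k w)⁻¹ *ᵥ v) j‖ ^ 2)
      ≤ Real.sqrt (‖v‖ ^ 2 * S.G A k w) := Real.sqrt_le_sqrt hsum
    _ = ‖v‖ * Real.sqrt (S.G A k w) := by
        rw [Real.sqrt_mul (by positivity), Real.sqrt_sq (norm_nonneg _)]

theorem Facts.len' (h : S.Facts A) (k : ℕ) (w v : Fin m → ℂ)
    (hs : ∀ s ∈ Icc (0 : ℝ) 1, w + s • v ∈ S.U A k) :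
    ENNReal.ofReal (D.dist (S.M k) (S.φ k w) (S.φ k (w + v))) ≤
      ENNReal.ofReal ‖v‖ *
        ∫⁻ s in Icc (0 : ℝ) 1, ENNReal.ofReal (Real.sqrt (S.G A k (w + s • v))) := by
  refine (h.len k w v hs).trans ?_
  rw [← lintegral_const_mul' _ _ ENNReal.ofReal_ne_top]
  refine setLIntegral_mono' measurableSet_Icc fun s hsI => ?_
  rw [← ENNReal.ofReal_mul (norm_nonneg _)]
  exact ENNReal.ofReal_le_ofReal (len_core h k (w + s • v) v (hs s hsI))

end Model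

end Pool.Agent.SYP
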