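import Pool.Agent.SYP.Model

/-!
# SYP/MDefs : the data of `Degen` of a semistable model
-/

set_option autoImplicit false

open MeasureTheory Set Filter
open scoped ENNReal Topology Matrix ComplexOrder

namespace Pool.Agent.SYP

/-- the core of the logarithmic chart -/
def box (m : ℕ) (L : ℝ) : Set (Fin m → ℂ) :=
  {w | ∀ i, |(w i).re + L / (m + 1)| ≤ L / (2 * (m + 1) ^ 2) ∧ (w i).im ∈ Icc (1 : ℝ) 5}

namespace Model

variable {m : ℕ} {D : Geo2 m} (S : Model D)

/-- the trace of the Fubini-Study form -/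
noncomputable def th (k : ℕ) (x : D.X) : ℝ := (S.θ k x).trace.re

open Classical in
/-- a bound for the norm of `Z⁻¹` -/
noncomputable def G (A : ℝ) (k : ℕ) (w : Fin m → ℂ) : ℝ :=
  if w ∈ S.U A k then m * A ^ 2 * ∑ i, ∑ j, ‖(S.Z k w).adjugate i j‖ ^ 2 else 0

/-- the sequence of `Degen`, from the index `k₁` on -/
noncomputable def toDegen (A : ℝ) (k₁ : ℕ) : SYN.Degen D.toGeo where
  M k := S.M (k + k₁)
  L k := S.L (k + k₁)
  y k := S.y (k + k₁)
  th k := S.th (k + k₁)
  φ k := S.φ (k + k₁)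
  G k := S.G A (k + k₁)
  W k := box m (S.L (k + k₁))
  U k := S.U A (k + k₁)

end Model

end Pool.Agent.SYP
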