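import Pool.Agent.SYP.MDefs
import Pool.Agent.SYP.G2Rules
import Pool.Agent.SYM.HermC

/-!
# SYP/MGram : bounds for `G` and lower bounds for the Gram determinant
-/

set_option autoImplicit false

open MeasureTheory Set Filter
open scoped ENNReal Topology Matrix ComplexOrder

namespace Pool.Agent.SYP

namespace Model

variable {m : ℕ} {D : Geo2 m} {S : Model D} {A : ℝ}

theorem gr_eq (M : D.Met) (f : D.X → ℝ) (x : D.X) :
    D.toGeo.gr M f f x = ∑ i, ‖D.dl M f x i‖ ^ 2 := by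
  change (D.pr M f f x).re = _
  rw [Geo2.pr_self, Complex.ofReal_re]

theorem LogFrame.row {k : ℕ} {x : D.X} {Z : Matrix (Fin m) (Fin m) ℂ} (h : S.LogFrame A k x Z)
    (j : Fin m) : (((A : ℝ) : ℂ) • S.θ k x -
      SYM.sqForm (Z j + D.dl (S.M k) (S.y k j.succ) x)).PosSemidef := by
  have h1 := h.succ j
  rw [add_comm] at h1
  exact h1

theorem Facts.G_le (h : S.Facts A) (C : ℝ) : ∃ K : ℝ, ∀ k, ∀ w ∈ S.U A k,
    (∀ i, D.toGeo.gr (S.M k) (S.y k i) (S.y k i) (S.φ k w) ≤ C) → S.th k (S.φ k w) ≤ 1 →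
      S.G A k w ≤ K := by
  have hA : 0 ≤ A := le_trans zero_le_one h.one_le
  have hA' : 0 < A⁻¹ := inv_pos.2 (lt_of_lt_of_le zero_lt_one h.one_le)
  set R : ℝ := Real.sqrt A + Real.sqrt C with hR
  refine ⟨m * A ^ 2 * (A ^ 2 * ((Fintype.card (Fin m) : ℝ) ^ 2 *
      ((Fintype.card (Fin m)).factorial * (max R 1) ^ Fintype.card (Fin m) / A⁻¹) ^ 2)), ?_⟩
  intro k w hw hgr hth
  have hfr := h.frame k w hw
  have hdet := h.det_Z k w hw
  have hT : (S.θ k (S.φ k w)).trace.re ≤ 1 := hth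
  have hY : ∀ j : Fin m, ∑ i, ‖D.dl (S.M k) (S.y k j.succ) (S.φ k w) i‖ ^ 2 ≤ C := by
    intro j
    have h1 := hgr j.succ
    rwa [gr_eq] at h1
  have hZ : ∀ i j, ‖S.Z k w i j‖ ≤ R := fun i j =>
    SYM.norm_entry_le_of (Y := fun j => D.dl (S.M k) (S.y k j.succ) (S.φ k w)) hA hT
      (fun j => hfr.row j) hY i j
  have hinv := SYM.sum_norm_inv_sq_le hA' hdet.1 hZ
  have hne : (S.Z k w).det ≠ 0 := by
    intro h0
    rw [h0, norm_zero] at hdet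
    exact absurd hdet.1 (not_le.2 hA')
  have hadj : (S.Z k w).adjugate = (S.Z k w).det • (S.Z k w)⁻¹ := by
    rw [Matrix.inv_def, smul_smul, Ring.inverse_eq_inv', mul_inv_cancel₀ hne, one_smul]
  have hsum : ∑ i, ∑ j, ‖(S.Z k w).adjugate i j‖ ^ 2 ≤
      A ^ 2 * ∑ i, ∑ j, ‖(S.Z k w)⁻¹ i j‖ ^ 2 := by
    rw [Finset.mul_sum]
    refine Finset.sum_le_sum fun i _ => ?_
    rw [Finset.mul_sum]
    refine Finset.sum_le_sum fun j _ => ?_
    rw [hadj, Matrix.smul_apply, smul_eq_mul, norm_mul, mul_pow]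
    exact mul_le_mul_of_nonneg_right (pow_le_pow_left₀ (norm_nonneg _) hdet.2 2) (sq_nonneg _)
  unfold G
  rw [if_pos hw]
  refine mul_le_mul_of_nonneg_left ?_ (by positivity)
  exact hsum.trans (mul_le_mul_of_nonneg_left hinv (sq_nonneg _))

theorem gram_eq (M : D.Met) (f : Fin m → D.X → ℝ) (x : D.X) :
    D.toGeo.gram M f x = ‖(Matrix.of fun i => D.dl M (f i) x).det‖ ^ 2 := by
  rw [← SYM.norm_det_gram]
  unfold SYN.Geo.gram
  congr 2
  funext i j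
  change (((D.pr M (f i) (f j) x).re : ℂ) + ((D.pr M (f i) (f j) x).im : ℂ) * Complex.I) = _
  rw [Complex.re_add_im]
  rfl

theorem Facts.gram_low (h : S.Facts A) : ∃ a₀ : ℝ, 0 < a₀ ∧ ∀ C : ℝ, ∃ τ : ℝ, 0 < τ ∧ ∀ k x,
    (∀ i, A ≤ S.y k i x) → (∀ i, D.toGeo.gr (S.M k) (S.y k i) (S.y k i) x ≤ C) →
    S.th k x ≤ τ → a₀ ≤ D.toGeo.gram (S.M k) (fun i : Fin m => S.y k i.succ) x := by
  have hA : 0 < A := lt_of_lt_of_le zero_lt_one h.one_le
  have hA' : 0 < A⁻¹ := inv_pos.2 hA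
  refine ⟨(A⁻¹ / 2) ^ 2, by positivity, fun C => ?_⟩
  obtain ⟨τ, hτ, -, H⟩ := SYM.exists_tau m A (max C 0) A⁻¹ hA (le_max_right _ _) hA'
  refine ⟨τ, hτ, fun k x hy hgr hth => ?_⟩
  obtain ⟨Z, hZ, hfr⟩ := h.deep k x hy
  have h1 := H (S.θ k x) Z (fun j => D.dl (S.M k) (S.y k j.succ) x) hth (fun j => hfr.row j)
    (fun j => by
      have h2 := hgr j.succ
      rw [gr_eq] at h2
      exact h2.trans (le_max_left _ _)) hZ
  rw [gram_eq]
  exact pow_le_pow_left₀ (by positivity) h1 2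

end Model

end Pool.Agent.SYP
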