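import Pool.Agent.SYP.MInt
import Pool.Agent.SYP.MGram
import Pool.Agent.SYP.MChart

/-!
# SYP/MFinal : the facts of `Degen` for a semistable model
-/

set_option autoImplicit false

open MeasureTheory Set Filter
open scoped ENNReal Topology Matrix ComplexOrder

namespace Pool.Agent.SYP

namespace Model

variable {m : ℕ} {D : Geo2 m} {S : Model D} {A : ℝ}

theorem ball_subset_U {k : ℕ} {r : ℝ} (hA : 0 ≤ A) (hL : 2 * (m + 1) * (A + (m + 1) * r) < S.L k)
    {w : Fin m → ℂ} (hw : w ∈ box m (S.L k)) : Metric.ball w r ⊆ S.U A k := by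
  intro w' hw'
  have hr : 0 < r := lt_of_le_of_lt dist_nonneg (Metric.mem_ball.1 hw')
  have hm : (0 : ℝ) ≤ m := Nat.cast_nonneg m
  have hL0 : 0 ≤ S.L k := by
    have : 0 ≤ 2 * ((m : ℝ) + 1) * (A + (m + 1) * r) := by positivity
    linarith
  obtain ⟨h1, h2⟩ := box_deep m (S.L k) r hL0 w w' hw hw'
  have h3 : A + (m + 1) * r < S.L k / (2 * (m + 1)) := by
    rw [lt_div_iff₀ (by positivity)]
    linarith
  refine ⟨fun i => ?_, ?_⟩
  · have h4 := h1 i
    nlinarith [mul_nonneg hm hr.le]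
  · nlinarith [mul_nonneg hm hr.le]

/-- **The semistable model has all the properties used in the analytic core.** -/
theorem Facts.toDegen (hD : D.Rules) (h : S.Facts A) (a' : ℝ) (ha' : 0 < a') :
    ∃ (k₁ : ℕ) (B a : ℝ), a ≤ a' ∧ (S.toDegen A k₁).Facts B a := by
  have hA1 := h.one_le
  have hA0 : 0 < A := by linarith
  have hm : (0 : ℝ) ≤ m := Nat.cast_nonneg m
  have hκ := h.κ_nonneg
  obtain ⟨a₀, ha₀, hgram⟩ := h.gram_low
  obtain ⟨B₀, L₀, hG⟩ := h.G_int hD
  set a : ℝ := min a' (min a₀ (min (1 / (12 * (m + 1))) ((4 / (m + 1) ^ 2) ^ m))) with ha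
  have ha0 : 0 < a := by
    refine lt_min ha' (lt_min ha₀ (lt_min (by positivity) (by positivity)))
  have haa₀ : a ≤ a₀ := (min_le_right _ _).trans (min_le_left _ _)
  have ha1 : a ≤ 1 / (12 * (m + 1)) :=
    (min_le_right _ _).trans ((min_le_right _ _).trans (min_le_left _ _))
  have ha2 : a ≤ (4 / (m + 1) ^ 2) ^ m :=
    (min_le_right _ _).trans ((min_le_right _ _).trans (min_le_right _ _))
  set B : ℝ := 1 + A + A ^ 2 + m * S.κ * A + 18 ^ m + |B₀| with hB
  have hnn : 0 ≤ m * S.κ * A := by positivity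
  have h18 : (0 : ℝ) ≤ 18 ^ m := by positivity
  have habs := abs_nonneg B₀
  have habs' := le_abs_self B₀
  have hsq : 0 ≤ A ^ 2 := by positivity
  have hB1 : 1 + A ≤ B := by rw [hB]; linarith
  have hB2 : A ^ 2 ≤ B := by rw [hB]; linarith
  have hB3 : m * S.κ * A ≤ B := by rw [hB]; linarith
  have hB4 : 18 ^ m ≤ B := by rw [hB]; linarith
  have hB5 : B₀ ≤ B := by rw [hB]; linarith
  have hB0 : 0 < B := by linarith
  set L₂ : ℝ := max L₀ (max (4 * (m + 1) * A) (max (A / (2 * a))
    (2 * (m + 1) * (A + (m + 1) * 1) + 1))) with hL₂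
  obtain ⟨k₁, hk₁⟩ := eventually_atTop.1 (h.L_top.eventually_ge_atTop L₂)
  have hL1 : ∀ k, L₀ ≤ S.L (k + k₁) := fun k =>
    (le_max_left _ _).trans (hk₁ _ (Nat.le_add_left _ _))
  have hL2 : ∀ k, 4 * (m + 1) * A ≤ S.L (k + k₁) := fun k =>
    (le_max_left _ _).trans ((le_max_right _ _).trans (hk₁ _ (Nat.le_add_left _ _)))
  have hL3 : ∀ k, A / (2 * a) ≤ S.L (k + k₁) := fun k =>
    (le_max_left _ _).trans ((le_max_right _ _).trans
      ((le_max_right _ _).trans (hk₁ _ (Nat.le_add_left _ _))))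
  have hL4 : ∀ k, 2 * (m + 1) * (A + (m + 1) * 1) + 1 ≤ S.L (k + k₁) := fun k =>
    (le_max_right _ _).trans ((le_max_right _ _).trans
      ((le_max_right _ _).trans (hk₁ _ (Nat.le_add_left _ _))))
  have hLp : ∀ k, 0 < S.L (k + k₁) := fun k => by linarith [h.L_one (k + k₁)]
  have hball : ∀ k, ∀ w ∈ box m (S.L (k + k₁)), Metric.ball w 1 ⊆ S.U A (k + k₁) := fun k w hw =>
    ball_subset_U hA0.le (by linarith [hL4 k]) hw
  have hthick : ∀ k, Metric.thickening 1 (box m (S.L (k + k₁))) ⊆ S.U A (k + k₁) := by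
    intro k w' hw'
    obtain ⟨w, hw, hd⟩ := Metric.mem_thickening_iff.1 hw'
    exact hball k w hw hd
  have hboxU : ∀ k, box m (S.L (k + k₁)) ⊆ S.U A (k + k₁) :=
    fun k => (Metric.self_subset_thickening one_pos _).trans (hthick k)
  refine ⟨k₁, B, a, min_le_left _ _, ?_⟩
  refine
    { A_pos := hB0
      a_pos := ha0
      L_one := fun k => h.L_one _
      L_top := h.L_top.comp (tendsto_add_atTop_nat k₁)
      y_sm := fun k i => h.y_sm _ i
      y_nonneg := fun k i x => h.y_nonneg _ i x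
      y_le := fun k i x => ?_
      th_tame := fun k => h.th_tame hD _
      th_nonneg := fun k x => h.th_nonneg _ x
      th_ener := fun k => h.th_ener _
      lap_le := fun k i x => ?_
      th_int := fun k => ?_
      W_meas := fun k => box_meas m _
      W_vol := fun k => ?_
      W_fin := fun k => ?_
      φ_meas := fun k => h.φ_meas _
      φ_cont := fun k => h.φ_cont _
      pull := fun k f hf h0 => ?_
      push := fun k w hw s hs => ?_
      G_meas := fun k => h.G_meas _
      G_nonneg := fun k w => G_nonneg _ w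
      G_int := fun k => ?_
      len := fun k w v hs => h.len' _ w v hs
      deep := fun r => ?_
      y_W := fun k w hw i => ?_
      G_le := fun C => ?_
      gram_low := fun C => ?_ }
  · refine (h.y_le (k + k₁) i x).trans ?_
    have h1 := h.L_one (k + k₁)
    change S.L (k + k₁) + A ≤ B * S.L (k + k₁)
    nlinarith
  · refine (h.lap_le (k + k₁) i x).trans ?_
    exact mul_le_mul_of_nonneg_right (by linarith) (h.th_nonneg _ x)
  · refine (h.th_int hD (k + k₁)).trans ?_
    have h1 := hLp k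
    change m * S.κ * A * S.L (k + k₁) ^ m / S.L (k + k₁) ≤
      B * S.L (k + k₁) ^ m / S.L (k + k₁)
    gcongr
  · refine le_trans (ENNReal.ofReal_le_ofReal ?_) (box_vol m _ (hLp k).le)
    have h1 : 0 ≤ S.L (k + k₁) ^ m := pow_nonneg (hLp k).le m
    exact mul_le_mul_of_nonneg_right ha2 h1
  · refine (box_thick_vol m _ (h.L_one (k + k₁))).trans (ENNReal.ofReal_le_ofReal ?_)
    exact mul_le_mul_of_nonneg_right hB4 (pow_nonneg (hLp k).le m)
  · refine (h.pull (k + k₁) _ (hboxU k) (fun w hw i => box_thick_im m _ w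
      (Metric.self_subset_thickening one_pos _ hw) i) f hf h0).trans (ENNReal.ofReal_le_ofReal ?_)
    exact mul_le_mul_of_nonneg_right hB2 (integral_nonneg h0)
  · refine (h.push (k + k₁) (Metric.ball w 1) (hball k w hw) (fun w' hw' i => box_thick_im m _ w'
      (Metric.mem_thickening_iff.2 ⟨w, hw, hw'⟩) i) s hs).trans ?_
    exact mul_le_mul_left (ENNReal.ofReal_le_ofReal hB2) _
  · refine (hG (k + k₁) (hL1 k) (hthick k)).trans (ENNReal.ofReal_le_ofReal ?_)
    exact mul_le_mul_of_nonneg_right hB5 (pow_nonneg (hLp k).le m)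
  · have h1 := (h.L_top.comp (tendsto_add_atTop_nat k₁)).eventually_gt_atTop
      (2 * (m + 1) * (A + (m + 1) * r))
    filter_upwards [h1] with k hk w hw
    exact ball_subset_U hA0.le hk hw
  · have hwU := hboxU k hw
    have hb := box_deep m (S.L (k + k₁)) (1 / 2) (hLp k).le w w hw
      (Metric.mem_ball_self (by norm_num))
    have hb' : ∀ r : ℝ, 0 < r → (∀ i, (w i).re ≤ -(S.L (k + k₁) / (2 * (m + 1))) + r) ∧
        S.L (k + k₁) / (2 * (m + 1)) - m * r ≤ S.L (k + k₁) + ∑ i, (w i).re := fun r hr =>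
      box_deep m _ r (hLp k).le w w hw (Metric.mem_ball_self hr)
    have h3 : ∀ i, (w i).re ≤ -(S.L (k + k₁) / (2 * (m + 1))) := fun i =>
      le_of_forall_pos_le_add fun r hr => (hb' r hr).1 i
    have h4 : S.L (k + k₁) / (2 * (m + 1)) ≤ S.L (k + k₁) + ∑ i, (w i).re := by
      refine le_of_forall_pos_le_add fun r hr => ?_
      have h5 := (hb' (r / (m + 1)) (by positivity)).2
      have h6 : m * (r / (m + 1)) ≤ r := by
        rw [← mul_div_assoc, div_le_iff₀ (by positivity)]
        nlinarith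
      linarith
    have h7 : 3 * a * S.L (k + k₁) ≤ S.L (k + k₁) / (2 * (m + 1)) - A := by
      have h8 : 3 * a * S.L (k + k₁) ≤ 3 * (1 / (12 * (m + 1))) * S.L (k + k₁) := by
        have := hLp k
        gcongr
      have h9 : A ≤ S.L (k + k₁) / (4 * (m + 1)) := by
        rw [le_div_iff₀ (by positivity)]
        linarith [hL2 k]
      have h10 : 3 * (1 / (12 * ((m : ℝ) + 1))) * S.L (k + k₁) = S.L (k + k₁) / (4 * (m + 1)) := by
        field_simp
        ring
      have h11 : S.L (k + k₁) / (2 * ((m : ℝ) + 1)) =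
          S.L (k + k₁) / (4 * (m + 1)) + S.L (k + k₁) / (4 * (m + 1)) := by
        field_simp
        ring
      linarith
    refine Fin.cases ?_ (fun j => ?_) i
    · have h12 := (abs_le.1 (h.y_zero (k + k₁) w hwU)).1
      change 3 * a * S.L (k + k₁) ≤ S.y (k + k₁) 0 (S.φ (k + k₁) w)
      linarith
    · have h12 := (abs_le.1 (h.y_succ (k + k₁) w hwU j)).1
      have h13 := h3 j
      change 3 * a * S.L (k + k₁) ≤ S.y (k + k₁) j.succ (S.φ (k + k₁) w)
      linarith
  · obtain ⟨K, hK⟩ := h.G_le C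
    exact ⟨K, fun k w hw h1 h2 => hK (k + k₁) w hw h1 h2⟩
  · obtain ⟨τ, hτ, hK⟩ := hgram C
    refine ⟨τ, hτ, fun k x h1 h2 h3 => haa₀.trans (hK (k + k₁) x (fun i => ?_) h2 h3)⟩
    refine le_trans ?_ (h1 i)
    have h4 := hL3 k
    rw [div_le_iff₀ (by positivity)] at h4
    change A ≤ 2 * a * S.L (k + k₁)
    linarith

end Model

end Pool.Agent.SYP
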