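import Pool.Agent.SYP.MTh
import Pool.Agent.SYP.G2Sqrt
import Pool.Agent.SYP.MBox

/-!
# SYP/MInt : the integral of the metric in the chart

`β = θ + δ dd^c √(1 + |y|²)` is a positive form in the class of `θ`, and `β ≥ (c/L) ∑ |dζ_j|²` in the
chart. The Monge-Ampère mass of `L⁻¹ ω + β` bounds the integral of `det(L⁻¹ + β)`.
-/

set_option autoImplicit false

open MeasureTheory Set Filter
open scoped ENNReal Topology Matrix ComplexOrder

namespace Pool.Agent.SYP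

open SYM (sqForm hval hval_add hval_sub hval_smul hval_sum hval_sqForm hval_nonneg psd_of_hval
  isHermitian_sqForm isHermitian_smul LevSqrt beta_ge beta_nonneg det_ge_of_sub)

/-- The Hessian of `√(1 + |y|²)` in the form of `SYM.LevSqrt`. -/
theorem levSqrt_of {m : ℕ} (y : Fin (m + 1) → ℝ) (Lv : Fin (m + 1) → Matrix (Fin m) (Fin m) ℂ)
    (Y : Fin (m + 1) → Fin m → ℂ) (F : Matrix (Fin m) (Fin m) ℂ)
    (hF : F = ∑ i, ((y i / Real.sqrt (1 + ∑ i, y i ^ 2) : ℝ) : ℂ) • Lv i +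
      ∑ i, ∑ j, ((((if i = j then 1 else 0) - y i * y j / (1 + ∑ i, y i ^ 2)) /
        Real.sqrt (1 + ∑ i, y i ^ 2) : ℝ) : ℂ) • Matrix.vecMulVec (star (Y i)) (Y j)) :
    LevSqrt 1 y (Real.sqrt (1 + ∑ i, y i ^ 2)) Lv Y F := by
  have h0 : 0 ≤ ∑ i, y i ^ 2 := Finset.sum_nonneg fun i _ => sq_nonneg _
  set f := Real.sqrt (1 + ∑ i, y i ^ 2) with hf
  have hf2 : f ^ 2 = 1 + ∑ i, y i ^ 2 := Real.sq_sqrt (by linarith)
  have hf1 : 1 ≤ f := by
    rw [hf]
    exact Real.one_le_sqrt.2 (by linarith)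
  have hf0 : f ≠ 0 := by linarith
  refine ⟨hf1, by rw [hf2]; linarith, ?_⟩
  rw [hF, ← hf2]
  congr 1
  ext a b
  simp only [Matrix.sum_apply, Matrix.smul_apply, Matrix.sub_apply, sqForm,
    Matrix.vecMulVec_apply, Pi.star_apply, smul_eq_mul, Finset.sum_apply, Pi.smul_apply,
    star_sum, Finset.mul_sum, star_mul']
  have hfc : (f : ℂ) ≠ 0 := by exact_mod_cast hf0
  have e1 : ∀ i j : Fin (m + 1), ((((if i = j then (1 : ℝ) else 0) - y i * y j / f ^ 2) / f : ℝ) : ℂ)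
      * (star (Y i a) * Y j b) = (if i = j then ((1 / f : ℝ) : ℂ) * (star (Y i a) * Y j b) else 0) -
        ((1 / f : ℝ) : ℂ) * (star (((y i / f : ℝ) : ℂ)) * star (Y i a) *
          (((y j / f : ℝ) : ℂ) * Y j b)) := by
    intro i j
    have e2 : star (((y i / f : ℝ) : ℂ)) = ((y i / f : ℝ) : ℂ) := Complex.conj_ofReal _
    rw [e2]
    by_cases hij : i = j
    · rw [if_pos hij, if_pos hij]
      push_cast
      field_simp
    · rw [if_neg hij, if_neg hij]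
      push_cast
      field_simp
      ring
  simp only [e1, Finset.sum_sub_distrib, Finset.sum_ite_eq, Finset.mem_univ, if_true]
  rw [mul_sub, Finset.mul_sum, Finset.mul_sum]
  congr 1
  rw [Finset.sum_comm]
  refine Finset.sum_congr rfl fun i _ => ?_
  rw [Finset.sum_mul, Finset.mul_sum]

/-- A sum of `n` vectors bounded by `T`. -/
theorem sqForm_sum_le {m n : ℕ} {A : ℝ} {T : Matrix (Fin m) (Fin m) ℂ} (r : Fin n → Fin m → ℂ)
    (hT : T.IsHermitian) (h : ∀ i, ((A : ℂ) • T - sqForm (r i)).PosSemidef) :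
    (((n ^ 2 * A : ℝ) : ℂ) • T - sqForm (∑ i, r i)).PosSemidef := by
  refine psd_of_hval ((isHermitian_smul hT _).sub (isHermitian_sqForm _)) fun v => ?_
  rw [hval_sub, hval_smul, hval_sqForm, sum_dotProduct]
  have h1 : ∀ i, ‖r i ⬝ᵥ v‖ ^ 2 ≤ A * hval T v := by
    intro i
    have h2 := hval_nonneg (h i) v
    rw [hval_sub, hval_smul, hval_sqForm] at h2
    linarith
  have h3 : ‖∑ i, r i ⬝ᵥ v‖ ^ 2 ≤ n * ∑ i, ‖r i ⬝ᵥ v‖ ^ 2 := by
    have h4 : ‖∑ i, r i ⬝ᵥ v‖ ≤ ∑ i, ‖r i ⬝ᵥ v‖ := norm_sum_le _ _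
    have h5 := sq_sum_le_card_mul_sum_sq (s := Finset.univ) (f := fun i => ‖r i ⬝ᵥ v‖)
    rw [Finset.card_univ, Fintype.card_fin] at h5
    exact (pow_le_pow_left₀ (norm_nonneg _) h4 2).trans h5
  have h6 : ∑ i, ‖r i ⬝ᵥ v‖ ^ 2 ≤ n * (A * hval T v) := by
    calc ∑ i, ‖r i ⬝ᵥ v‖ ^ 2 ≤ ∑ _i : Fin n, A * hval T v := Finset.sum_le_sum fun i _ => h1 i
      _ = n * (A * hval T v) := by simp
  have h7 : (n : ℝ) * ∑ i, ‖r i ⬝ᵥ v‖ ^ 2 ≤ n * (n * (A * hval T v)) :=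
    mul_le_mul_of_nonneg_left h6 (Nat.cast_nonneg n)
  nlinarith

namespace Model

variable {m : ℕ} {D : Geo2 m} {S : Model D} {A : ℝ}

/-- the form `β` in the chart -/
theorem Facts.beta (hD : D.Rules) (h : S.Facts A) (k : ℕ) (x : D.X) (δ : ℝ) (hδ : 0 ≤ δ)
    (hδ1 : δ * ((2 * m + 3) * ((m + 1) ^ 2 * A)) ≤ 1) :
    (S.θ k x + (δ : ℂ) •
      D.lev (S.M k) (fun x => Real.sqrt (1 + ∑ i, S.y k i x ^ 2)) x).PosSemidef ∧
    ∀ Z : Matrix (Fin m) (Fin m) ℂ, S.LogFrame A k x Z → ∀ s : ℝ,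
      s ≤ δ / (2 * (2 * m + 3) * Real.sqrt (1 + ∑ i, S.y k i x ^ 2)) →
      (S.θ k x + (δ : ℂ) • D.lev (S.M k) (fun x => Real.sqrt (1 + ∑ i, S.y k i x ^ 2)) x -
        (s : ℂ) • (Zᴴ * Z)).PosSemidef := by
  have hA1 := h.one_le
  have hpos := h.θ_pos k x
  have hm : (0 : ℝ) ≤ m := Nat.cast_nonneg m
  have hA' : A ≤ (m + 1) ^ 2 * A := by nlinarith [mul_nonneg hm (by linarith : (0 : ℝ) ≤ A)]
  have hA0 : 0 ≤ (m + 1) ^ 2 * A := by linarith
  have hLS := levSqrt_of (fun i => S.y k i x) (fun i => D.lev (S.M k) (S.y k i) x)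
    (fun i => D.dl (S.M k) (S.y k i) x) _ ((hD.sqrt_comp (S.M k) (m + 1) (S.y k) (h.y_sm k)).2 x)
  have hherm : ∀ i, (D.lev (S.M k) (S.y k i) x).IsHermitian := fun i =>
    hD.lev_herm _ _ (h.y_sm k i) x
  have hmono : ∀ (N : Matrix (Fin m) (Fin m) ℂ), N.IsHermitian →
      ((A : ℂ) • S.θ k x + N).PosSemidef →
      ((((m + 1) ^ 2 * A : ℝ) : ℂ) • S.θ k x + N).PosSemidef := by
    intro N hN hp
    refine psd_of_hval ((isHermitian_smul hpos.1 _).add hN) fun v => ?_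
    have h1 := hval_nonneg hp v
    have h2 := hval_nonneg hpos v
    rw [hval_add, hval_smul] at h1 ⊢
    nlinarith
  have hL : ∀ i, ((((m + 1) ^ 2 * A : ℝ) : ℂ) • S.θ k x + D.lev (S.M k) (S.y k i) x).PosSemidef :=
    fun i => hmono _ (hherm i) (h.curv_ge k i x)
  refine ⟨beta_nonneg hLS zero_le_one (fun i => h.y_nonneg k i x) hherm hL hA0 hpos hδ ?_, ?_⟩
  · nlinarith
  · intro Z hZ s hs
    have hr : ∀ j : Fin m, ((((m + 1) ^ 2 * A : ℝ) : ℂ) • S.θ k x -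
        sqForm (Z j + D.dl (S.M k) (S.y k j.succ) x)).PosSemidef := by
      intro j
      have h1 := hZ.succ j
      rw [add_comm] at h1
      rw [sub_eq_add_neg]
      refine hmono _ (isHermitian_sqForm _).neg ?_
      rw [← sub_eq_add_neg]
      rw [sqForm, add_comm (Z j)]
      exact hZ.succ j
    have he : ((((m + 1) ^ 2 * A : ℝ) : ℂ) • S.θ k x -
        sqForm (∑ i, D.dl (S.M k) (S.y k i) x)).PosSemidef := by
      have h1 := sqForm_sum_le (n := m + 1) (A := A) (T := S.θ k x)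
        (fun i => Fin.cases (D.dl (S.M k) (S.y k 0) x - ∑ i, Z i)
          (fun j => D.dl (S.M k) (S.y k j.succ) x + Z j) i) hpos.1 (by
            intro i
            refine Fin.cases ?_ (fun j => ?_) i
            · exact hZ.zero
            · exact hZ.succ j)
      have h2 : (∑ i : Fin (m + 1), (Fin.cases (D.dl (S.M k) (S.y k 0) x - ∑ i, Z i)
          (fun j => D.dl (S.M k) (S.y k j.succ) x + Z j) i : Fin m → ℂ)) =
          ∑ i, D.dl (S.M k) (S.y k i) x := by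
        rw [Fin.sum_univ_succ, Fin.sum_univ_succ (fun i => D.dl (S.M k) (S.y k i) x)]
        simp only [Fin.cases_zero, Fin.cases_succ]
        have e : ∑ j : Fin m, (D.dl (S.M k) (S.y k j.succ) x + Z j) =
            ∑ j : Fin m, D.dl (S.M k) (S.y k j.succ) x + ∑ j, Z j := Finset.sum_add_distrib
        rw [e]
        abel
      rw [h2] at h1
      have h3 : (((m + 1 : ℕ) : ℝ) ^ 2 * A) = (m + 1) ^ 2 * A := by push_cast; ring
      rw [h3] at h1
      exact h1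
    refine beta_ge hLS zero_le_one (fun i => h.y_nonneg k i x) hherm hL hA0 hpos he hr hδ ?_ ?_
    · have e : ((m : ℝ) + 1 + 2 * 1 + 1 * m) = 2 * m + 3 := by ring
      rw [e]
      exact hδ1
    · rw [mul_one]
      exact hs

theorem Facts.sqrt_le (h : S.Facts A) (k : ℕ) (x : D.X) :
    Real.sqrt (1 + ∑ i, S.y k i x ^ 2) ≤ (1 + (m + 1) * (1 + A)) * S.L k := by
  have hA := h.one_le
  have hL := h.L_one k
  have hm : (0 : ℝ) ≤ m := Nat.cast_nonneg m
  have h1 : ∑ i, S.y k i x ^ 2 ≤ (m + 1) * (S.L k + A) ^ 2 := by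
    calc ∑ i, S.y k i x ^ 2 ≤ ∑ _i : Fin (m + 1), (S.L k + A) ^ 2 :=
          Finset.sum_le_sum fun i _ => pow_le_pow_left₀ (h.y_nonneg k i x) (h.y_le k i x) 2
      _ = (m + 1) * (S.L k + A) ^ 2 := by simp
  have h2 : Real.sqrt (1 + ∑ i, S.y k i x ^ 2) ≤ 1 + (m + 1) * (S.L k + A) := by
    rw [Real.sqrt_le_left (by positivity)]
    have h3 : 0 ≤ S.L k + A := by linarith
    nlinarith [mul_nonneg hm h3, mul_nonneg (mul_nonneg hm hm) (sq_nonneg (S.L k + A)),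
      mul_nonneg hm (sq_nonneg (S.L k + A))]
  refine h2.trans ?_
  nlinarith [mul_nonneg hm (by linarith : (0 : ℝ) ≤ A), mul_nonneg
    (mul_nonneg hm (by linarith : (0 : ℝ) ≤ A)) (by linarith : (0 : ℝ) ≤ S.L k - 1),
    mul_nonneg (by linarith : (0 : ℝ) ≤ A) (by linarith : (0 : ℝ) ≤ S.L k - 1)]

/-- Bounded matrices have bounded determinants. -/
theorem norm_det_le {n : ℕ} (N : Matrix (Fin n) (Fin n) ℂ) (C : ℝ) (hN : ∀ i j, ‖N i j‖ ≤ C) :
    ‖N.det‖ ≤ n.factorial * C ^ n := by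
  have h := Matrix.det_le (A := N)
    (abv := IsAbsoluteValue.toAbsoluteValue (norm : ℂ → ℝ)) (x := C) hN
  simpa [nsmul_eq_mul] using h

theorem Facts.G_int (hD : D.Rules) (h : S.Facts A) : ∃ B L₀ : ℝ, ∀ k, L₀ ≤ S.L k →
    Metric.thickening 1 (box m (S.L k)) ⊆ S.U A k →
    ∫⁻ w in Metric.thickening 1 (box m (S.L k)), ENNReal.ofReal (S.G A k w) ≤
      ENNReal.ofReal (B * S.L k ^ m) := by
  have hA := h.one_le
  have hm : (0 : ℝ) ≤ m := Nat.cast_nonneg m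
  have hκ := h.κ_nonneg
  set δ : ℝ := 1 / ((2 * m + 3) * ((m + 1) ^ 2 * A)) with hδ
  have hδ0 : 0 < δ := by positivity
  have hδ1 : δ * ((2 * m + 3) * ((m + 1) ^ 2 * A)) ≤ 1 := by
    rw [hδ, one_div, inv_mul_cancel₀ (by positivity)]
  set c : ℝ := δ / (2 * (2 * m + 3) * (1 + (m + 1) * (1 + A))) with hc
  have hc0 : 0 < c := by positivity
  refine ⟨m * A ^ 2 * (c⁻¹) ^ (m - 1) * A ^ 2 * (A * (1 + S.κ) ^ m), 0, fun k _ hU => ?_⟩
  have hL := h.L_one k
  have hL0 : 0 < S.L k := by linarith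
  have : IsFiniteMeasure (D.vol (S.M k)) := hD.fin _
  set f : D.X → ℝ := fun x => Real.sqrt (1 + ∑ i, S.y k i x ^ 2) with hf
  obtain ⟨hfsm, hflev⟩ := hD.sqrt_comp (S.M k) (m + 1) (S.y k) (h.y_sm k)
  obtain ⟨hvsm, hvlev⟩ := hD.sm_add_mul (S.M k) (S.u k) f (h.u_sm k) hfsm δ
  set v : D.X → ℝ := fun x => S.u k x + δ * f x with hv
  set t : ℝ := 1 / S.L k with ht
  have ht0 : 0 < t := by positivity
  set F : D.X → ℝ := fun x =>
    ((((1 + S.κ) / S.L k : ℝ) : ℂ) • (1 : Matrix (Fin m) (Fin m) ℂ) + D.lev (S.M k) v x).det.re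
    with hF
  have hFeq : ∀ x, F x = ((t : ℂ) • (1 : Matrix (Fin m) (Fin m) ℂ) +
      (S.θ k x + (δ : ℂ) • D.lev (S.M k) f x)).det.re := by
    intro x
    rw [hF]
    simp only
    rw [hvlev x, θ, ← add_assoc, ← add_assoc, ← add_assoc, ← add_smul, ht]
    congr 5
    push_cast
    ring
  have hpos : ∀ x, 0 ≤ F x := by
    intro x
    rw [hFeq]
    have h1 := (h.beta hD k x δ hδ0.le hδ1).1
    have h2 : ((t : ℂ) • (1 : Matrix (Fin m) (Fin m) ℂ)).PosSemidef := by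
      refine Matrix.PosSemidef.one.smul ?_
      exact_mod_cast ht0.le
    exact (Complex.nonneg_iff.1 (h2.add h1).det_nonneg).1
  have hcont : Continuous F := Complex.continuous_re.comp (hD.det_cont _ _ hvsm _)
  -- the complex Hessian of `v` is bounded
  obtain ⟨C₁, hC₁⟩ := h.u_bdd k
  obtain ⟨C₂, hC₂⟩ := hD.sqrt_bdd (S.M k) (m + 1) (S.y k) (h.y_sm k) (h.y_bdd k)
  have hvb : ∀ x a b, ‖D.lev (S.M k) v x a b‖ ≤ C₁ + δ * C₂ := by
    intro x a b
    rw [hvlev x, Matrix.add_apply, Matrix.smul_apply, smul_eq_mul]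
    refine (norm_add_le _ _).trans (add_le_add (hC₁ x a b) ?_)
    rw [norm_mul, Complex.norm_real, Real.norm_eq_abs, abs_of_pos hδ0]
    exact mul_le_mul_of_nonneg_left (hC₂ x a b) hδ0.le
  have hint : Integrable F (D.vol (S.M k)) := by
    refine Integrable.of_bound hcont.aestronglyMeasurable
      (m.factorial * ((1 + S.κ) / S.L k + (C₁ + δ * C₂)) ^ m) (Eventually.of_forall fun x => ?_)
    rw [Real.norm_eq_abs]
    refine (Complex.abs_re_le_norm _).trans (norm_det_le _ _ fun i j => ?_)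
    rw [Matrix.add_apply, Matrix.smul_apply, smul_eq_mul]
    refine (norm_add_le _ _).trans (add_le_add ?_ (hvb x i j))
    rw [norm_mul, Complex.norm_real, Real.norm_eq_abs, abs_of_nonneg (by positivity)]
    refine mul_le_of_le_one_right (by positivity) ?_
    rw [Matrix.one_apply]
    split_ifs <;> simp
  have hmass : ∫ x, F x ∂(D.vol (S.M k)) ≤ A * (1 + S.κ) ^ m := by
    rw [hF]
    rw [hD.mass (S.M k) v hvsm ⟨_, hvb⟩ ((1 + S.κ) / S.L k)]
    calc ((1 + S.κ) / S.L k) ^ m * (D.vol (S.M k)).real univ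
        ≤ ((1 + S.κ) / S.L k) ^ m * (A * S.L k ^ m) :=
          mul_le_mul_of_nonneg_left (h.vol k) (by positivity)
      _ = A * (1 + S.κ) ^ m := by
          rw [div_pow]
          field_simp
  -- pointwise bound
  have hpt : ∀ w ∈ Metric.thickening 1 (box m (S.L k)),
      ENNReal.ofReal (S.G A k w) ≤
        ENNReal.ofReal (m * A ^ 2 * (c⁻¹) ^ (m - 1) * A ^ 2 * S.L k ^ m) *
          (ENNReal.ofReal ((‖(S.Z k w).det‖ ^ 2)⁻¹) * ENNReal.ofReal (F (S.φ k w))) := by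
    intro w hw
    have hwU := hU hw
    obtain ⟨hd1, hd2⟩ := h.det_Z k w hwU
    have hdpos : 0 < ‖(S.Z k w).det‖ := lt_of_lt_of_le (by positivity) hd1
    have hdne : (S.Z k w).det ≠ 0 := norm_pos_iff.1 hdpos
    rw [← ENNReal.ofReal_mul (by positivity), ← ENNReal.ofReal_mul (by positivity)]
    refine ENNReal.ofReal_le_ofReal ?_
    rw [G, if_pos hwU]
    rcases Nat.eq_zero_or_pos m with hm0 | hm0
    · have : (m : ℝ) = 0 := by exact_mod_cast hm0
      rw [this]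
      simp
    have h1 := (h.beta hD k (S.φ k w) δ hδ0.le hδ1).2 (S.Z k w) (h.frame k w hwU) (c / S.L k) (by
      have h2 := h.sqrt_le k (S.φ k w)
      have h3 : 0 < Real.sqrt (1 + ∑ i, S.y k i (S.φ k w) ^ 2) := by
        refine Real.sqrt_pos.2 ?_
        have : 0 ≤ ∑ i, S.y k i (S.φ k w) ^ 2 := Finset.sum_nonneg fun i _ => sq_nonneg _
        linarith
      rw [hc, div_div]
      refine div_le_div_of_nonneg_left hδ0.le (by positivity) ?_
      rw [mul_assoc (2 * (2 * (m : ℝ) + 3))]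
      exact mul_le_mul_of_nonneg_left h2 (by positivity))
    have h2 := det_ge_of_sub hdne (by positivity) ht0 h1
    rw [← hFeq, Fintype.card_fin] at h2
    have h3 : ∑ i, ∑ j, ‖(S.Z k w).adjugate i j‖ ^ 2 =
        ‖(S.Z k w).det‖ ^ 2 * ∑ i, ∑ j, ‖(S.Z k w)⁻¹ i j‖ ^ 2 := by
      rw [Finset.mul_sum]
      refine Finset.sum_congr rfl fun i _ => ?_
      rw [Finset.mul_sum]
      refine Finset.sum_congr rfl fun j _ => ?_
      rw [Matrix.inv_def, Matrix.smul_apply, smul_eq_mul, norm_mul, mul_pow,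
        Ring.inverse_eq_inv', norm_inv, ← mul_assoc, ← mul_pow, mul_inv_cancel₀ hdpos.ne',
        one_pow, one_mul]
    rw [← h3] at h2
    set P := ∑ i, ∑ j, ‖(S.Z k w).adjugate i j‖ ^ 2 with hP
    have hP0 : 0 ≤ P := by positivity
    have h4 : P ≤ S.L k ^ m * (c⁻¹) ^ (m - 1) * F (S.φ k w) := by
      have h5 : t * (c / S.L k) ^ (m - 1) * (S.L k ^ m * (c⁻¹) ^ (m - 1)) = 1 := by
        have h6 : S.L k ^ m = S.L k ^ (m - 1) * S.L k := by
          rw [← pow_succ, Nat.sub_add_cancel hm0]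
        rw [h6, ht, div_pow, inv_pow]
        field_simp
      calc P = t * (c / S.L k) ^ (m - 1) * P * (S.L k ^ m * (c⁻¹) ^ (m - 1)) := by
            rw [mul_right_comm, h5, one_mul]
        _ ≤ F (S.φ k w) * (S.L k ^ m * (c⁻¹) ^ (m - 1)) :=
            mul_le_mul_of_nonneg_right h2 (by positivity)
        _ = _ := by ring
    have h7 : 1 ≤ A ^ 2 * (‖(S.Z k w).det‖ ^ 2)⁻¹ := by
      rw [← div_eq_mul_inv, le_div_iff₀ (by positivity), one_mul]
      exact pow_le_pow_left₀ hdpos.le hd2 2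
    have hF0 := hpos (S.φ k w)
    calc m * A ^ 2 * P ≤ m * A ^ 2 * (S.L k ^ m * (c⁻¹) ^ (m - 1) * F (S.φ k w)) :=
          mul_le_mul_of_nonneg_left h4 (by positivity)
      _ ≤ m * A ^ 2 * (S.L k ^ m * (c⁻¹) ^ (m - 1) * F (S.φ k w)) *
            (A ^ 2 * (‖(S.Z k w).det‖ ^ 2)⁻¹) :=
          le_mul_of_one_le_right (by positivity) h7
      _ = _ := by ring
  have hmeas : MeasurableSet (Metric.thickening 1 (box m (S.L k))) :=
    Metric.isOpen_thickening.measurableSet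
  calc ∫⁻ w in Metric.thickening 1 (box m (S.L k)), ENNReal.ofReal (S.G A k w)
      ≤ ∫⁻ w in Metric.thickening 1 (box m (S.L k)),
          ENNReal.ofReal (m * A ^ 2 * (c⁻¹) ^ (m - 1) * A ^ 2 * S.L k ^ m) *
          (ENNReal.ofReal ((‖(S.Z k w).det‖ ^ 2)⁻¹) * ENNReal.ofReal (F (S.φ k w))) :=
        setLIntegral_mono' hmeas hpt
    _ = ENNReal.ofReal (m * A ^ 2 * (c⁻¹) ^ (m - 1) * A ^ 2 * S.L k ^ m) *
        ∫⁻ w in Metric.thickening 1 (box m (S.L k)),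
          (ENNReal.ofReal ((‖(S.Z k w).det‖ ^ 2)⁻¹) * ENNReal.ofReal (F (S.φ k w))) :=
        lintegral_const_mul' _ _ ENNReal.ofReal_ne_top
    _ ≤ ENNReal.ofReal (m * A ^ 2 * (c⁻¹) ^ (m - 1) * A ^ 2 * S.L k ^ m) *
        ∫⁻ x, ENNReal.ofReal (F x) ∂(D.vol (S.M k)) := by
        refine mul_le_mul_right ?_ _
        refine le_trans (lintegral_mono_set ?_)
          (h.cov k (fun x => ENNReal.ofReal (F x)) hcont.measurable.ennreal_ofReal)
        intro w hw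
        exact ⟨hU hw, fun i => box_thick_im m _ w hw i⟩
    _ = ENNReal.ofReal (m * A ^ 2 * (c⁻¹) ^ (m - 1) * A ^ 2 * S.L k ^ m *
          ∫ x, F x ∂(D.vol (S.M k))) := by
        rw [← ofReal_integral_eq_lintegral_ofReal hint (Eventually.of_forall hpos),
          ← ENNReal.ofReal_mul (by positivity)]
    _ ≤ _ := by
        refine ENNReal.ofReal_le_ofReal ?_
        calc m * A ^ 2 * (c⁻¹) ^ (m - 1) * A ^ 2 * S.L k ^ m * ∫ x, F x ∂(D.vol (S.M k))
            ≤ m * A ^ 2 * (c⁻¹) ^ (m - 1) * A ^ 2 * S.L k ^ m * (A * (1 + S.κ) ^ m) :=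
              mul_le_mul_of_nonneg_left hmass (by positivity)
          _ = _ := by ring

end Model

end Pool.Agent.SYP
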