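import Pool.Agent.SYP.MDefs
import Pool.Agent.SYP.G2Rules
import Pool.Agent.SYM.HermC

/-!
# SYP/MTh : the trace of the Fubini-Study form
-/

set_option autoImplicit false

open MeasureTheory Set Filter
open scoped ENNReal Topology Matrix ComplexOrder

namespace Pool.Agent.SYP

namespace Model

variable {m : ℕ} {D : Geo2 m} {S : Model D} {A : ℝ}

theorem Facts.θ_pos (h : S.Facts A) (k : ℕ) (x : D.X) : (S.θ k x).PosSemidef := by
  have hA : 0 < A := by linarith [h.one_le]
  have h1 := (h.curv_le k 0 x).add (h.curv_ge k 0 x)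
  have e : S.θ k x = (((2 * A)⁻¹ : ℝ) : ℂ) • ((A : ℂ) • S.θ k x - D.lev (S.M k) (S.y k 0) x +
      ((A : ℂ) • S.θ k x + D.lev (S.M k) (S.y k 0) x)) := by
    have hA' : (A : ℂ) ≠ 0 := by exact_mod_cast hA.ne'
    rw [sub_add_add_cancel, ← add_smul, smul_smul]
    have : (((2 * A)⁻¹ : ℝ) : ℂ) * ((A : ℂ) + (A : ℂ)) = 1 := by
      push_cast
      field_simp
      ring
    rw [this, one_smul]
  rw [e]
  refine h1.smul ?_
  have : 0 ≤ (2 * A)⁻¹ := by positivity
  exact_mod_cast this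

theorem Facts.th_nonneg (h : S.Facts A) (k : ℕ) (x : D.X) : 0 ≤ S.th k x :=
  SYM.trace_re_nonneg (h.θ_pos k x)

theorem th_eq (k : ℕ) (x : D.X) :
    S.th k x = m * (S.κ / S.L k) + (D.lev (S.M k) (S.u k) x).trace.re := by
  rw [th, θ, Matrix.trace_add, Matrix.trace_smul, Matrix.trace_one, Complex.add_re,
    Fintype.card_fin, smul_eq_mul, Complex.re_ofReal_mul, Complex.natCast_re, mul_comm]

theorem Facts.tr_int (hD : D.Rules) (h : S.Facts A) (k : ℕ) :
    Integrable (fun x => (D.lev (S.M k) (S.u k) x).trace.re) (D.vol (S.M k)) := by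
  have : IsFiniteMeasure (D.vol (S.M k)) := hD.fin _
  obtain ⟨C, hC⟩ := hD.trace_bdd (S.M k) (S.u k) (h.u_sm k)
  refine Integrable.of_bound ?_ C (Eventually.of_forall fun x => hC x)
  exact (Complex.continuous_re.comp (hD.trace_cont _ _ (h.u_sm k))).aestronglyMeasurable

theorem Facts.th_tame (hD : D.Rules) (h : S.Facts A) (k : ℕ) :
    D.toGeo.Tame (S.M k) (S.th k) := by
  have : IsFiniteMeasure (D.vol (S.M k)) := hD.fin _
  have e : S.th k = fun x => m * (S.κ / S.L k) + (D.lev (S.M k) (S.u k) x).trace.re :=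
    funext fun x => th_eq k x
  rw [e]
  refine ⟨?_, ?_⟩
  · exact continuous_const.add (Complex.continuous_re.comp (hD.trace_cont _ _ (h.u_sm k)))
  · exact Integrable.add (μ := D.vol (S.M k)) (integrable_const _) (h.tr_int hD k)

theorem Facts.th_ener (h : S.Facts A) (k : ℕ) : S.th k ∈ D.toGeo.ener (S.M k) :=
  ⟨S.θ k, h.fs k, rfl⟩

theorem Facts.lap_le (h : S.Facts A) (k : ℕ) (i : Fin (m + 1)) (x : D.X) :
    |D.toGeo.lap (S.M k) (S.y k i) x| ≤ A * S.th k x :=
  SYM.abs_trace_le (h.curv_ge k i x) (h.curv_le k i x)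

theorem Facts.th_int (hD : D.Rules) (h : S.Facts A) (k : ℕ) :
    ∫ x, S.th k x ∂(D.vol (S.M k)) ≤ m * S.κ * A * S.L k ^ m / S.L k := by
  have : IsFiniteMeasure (D.vol (S.M k)) := hD.fin _
  have hL : 0 < S.L k := by linarith [h.L_one k]
  have hκ := h.κ_nonneg
  have e : ∫ x, S.th k x ∂(D.vol (S.M k)) =
      (D.vol (S.M k)).real univ * (m * (S.κ / S.L k)) := by
    simp only [th_eq]
    rw [integral_add (integrable_const _) (h.tr_int hD k), hD.int_lap _ _ (h.u_sm k), add_zero,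
      integral_const, smul_eq_mul]
  rw [e]
  calc (D.vol (S.M k)).real univ * (m * (S.κ / S.L k))
      ≤ A * S.L k ^ m * (m * (S.κ / S.L k)) :=
        mul_le_mul_of_nonneg_right (h.vol k) (by positivity)
    _ = _ := by ring

end Model

end Pool.Agent.SYP
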