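import Pool.Agent.SYP.Geo2
import Pool.Agent.SYM.V3P.HKD

/-!
# SYP/Model : fibres of a projective semistable degeneration near a deepest point

`𝒳 → Δ` is a projective degeneration of `m`-dimensional varieties, semistable near its deepest
points: `E_0, ..., E_m` are components of the central fibre, near each common point of them `𝒳` is
smooth and there are coordinates `w_0, ..., w_m` with `E_i = {w_i = 0}` and `t = w_0 ⋯ w_m`. The class
of the metric of the fibre `X_t` is `L = |log |t||` times a fixed multiple of a relatively ample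
class, the metric is Ricci-flat.
-/

set_option autoImplicit false

open MeasureTheory Set Filter
open scoped ENNReal Topology Matrix ComplexOrder

namespace Pool.Agent.SYP

namespace Model

variable {m : ℕ} {D : Geo2 m} (S : Model D)

/-- The rows of the matrix `Z` are the forms `dζ_1, ..., dζ_m` of logarithmic coordinates at `x`:
`y_i + log |w_i|` is the restriction of a smooth function `b_i` on `𝒳`, so `2 ∂b_i` is bounded by
the Fubini-Study form. -/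
structure LogFrame (A : ℝ) (k : ℕ) (x : D.X) (Z : Matrix (Fin m) (Fin m) ℂ) : Prop where
  succ : ∀ i : Fin m, ((A : ℂ) • S.θ k x -
    Matrix.vecMulVec (star (D.dl (S.M k) (S.y k i.succ) x + Z i))
      (D.dl (S.M k) (S.y k i.succ) x + Z i)).PosSemidef
  zero : ((A : ℂ) • S.θ k x -
    Matrix.vecMulVec (star (D.dl (S.M k) (S.y k 0) x - ∑ i, Z i))
      (D.dl (S.M k) (S.y k 0) x - ∑ i, Z i)).PosSemidef

/-- What holds on such a degeneration. -/
structure Facts (A : ℝ) : Prop where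
  one_le : 1 ≤ A
  L_one : ∀ k, 1 ≤ S.L k
  L_top : Tendsto S.L atTop atTop
  κ_nonneg : 0 ≤ S.κ
  /-- the class of the metric is `L` times a constant class -/
  vol : ∀ k, (D.vol (S.M k)).real univ ≤ A * S.L k ^ m
  y_sm : ∀ k i, S.y k i ∈ D.sm (S.M k)
  y_bdd : ∀ k i, ∃ C, ∀ x a b, ‖D.lev (S.M k) (S.y k i) x a b‖ ≤ C
  /-- `|s_{E_i}| ≤ 1` for all components `E_i`, the product of all `s_{E_i}` is `t` -/
  y_nonneg : ∀ k i x, 0 ≤ S.y k i x
  y_le : ∀ k i x, S.y k i x ≤ S.L k + A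
  /-- `∂∂̄`-lemma: `θ` and `κ L⁻¹ ω` have the same class -/
  u_sm : ∀ k, S.u k ∈ D.sm (S.M k)
  u_bdd : ∀ k, ∃ C, ∀ x a b, ‖D.lev (S.M k) (S.u k) x a b‖ ≤ C
  fs : ∀ k, S.θ k ∈ D.fs (S.M k)
  /-- the curvature forms of the line bundles `O(E_i)` are bounded by the Fubini-Study form -/
  curv_le : ∀ k i x, ((A : ℂ) • S.θ k x - D.lev (S.M k) (S.y k i) x).PosSemidef
  curv_ge : ∀ k i x, ((A : ℂ) • S.θ k x + D.lev (S.M k) (S.y k i) x).PosSemidef
  φ_meas : ∀ k, Measurable (S.φ k)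
  φ_cont : ∀ k, ContinuousOn (S.φ k) (S.U A k)
  /-- `y_i + log |w_i|` is bounded -/
  y_succ : ∀ k, ∀ w ∈ S.U A k, ∀ i : Fin m, |S.y k i.succ (S.φ k w) + (w i).re| ≤ A
  y_zero : ∀ k, ∀ w ∈ S.U A k, |S.y k 0 (S.φ k w) - (S.L k + ∑ i, (w i).re)| ≤ A
  frame : ∀ k, ∀ w ∈ S.U A k, S.LogFrame A k (S.φ k w) (S.Z k w)
  /-- the products `⟨dζ_i, dζ_j⟩` are continuous -/
  Z_cont : ∀ k, ContinuousOn (fun w => S.Z k w * (S.Z k w)ᴴ) (S.U A k)
  /-- the holomorphic volume form is `f dζ_1 ∧ ⋯ ∧ dζ_m`, `f(p) ≠ 0`, and `∫_{X_t} |Ω|²` grows like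
  `L^m` -/
  det_Z : ∀ k, ∀ w ∈ S.U A k, A⁻¹ ≤ ‖(S.Z k w).det‖ ∧ ‖(S.Z k w).det‖ ≤ A
  /-- the points where all `y_i` are large are near a point of `E_0 ∩ ⋯ ∩ E_m`, where `f` is
  bounded -/
  deep : ∀ k x, (∀ i, A ≤ S.y k i x) →
    ∃ Z : Matrix (Fin m) (Fin m) ℂ, A⁻¹ ≤ ‖Z.det‖ ∧ S.LogFrame A k x Z
  /-- the chart is injective for `0 < Im ζ_i < 2π`, and the volume form is
  `|det Z|⁻²` times the Lebesgue measure -/
  cov : ∀ k, ∀ f : D.X → ℝ≥0∞, Measurable f →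
    ∫⁻ w in S.U A k ∩ {w | ∀ i, (w i).im ∈ Ioo 0 (2 * Real.pi)},
      ENNReal.ofReal ((‖(S.Z k w).det‖ ^ 2)⁻¹) * f (S.φ k w) ≤ ∫⁻ x, f x ∂(D.vol (S.M k))
  /-- the length of segments; `Z⁻¹ v` is the tangent vector `v` in the unitary frame -/
  len : ∀ k w v, (∀ s ∈ Icc (0 : ℝ) 1, w + s • v ∈ S.U A k) →
    ENNReal.ofReal (D.dist (S.M k) (S.φ k w) (S.φ k (w + v))) ≤
      ∫⁻ s in Icc (0 : ℝ) 1, ENNReal.ofReal
        (Real.sqrt (∑ j, ‖((S.Z k (w + s • v))⁻¹ *ᵥ v) j‖ ^ 2))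

end Model

end Pool.Agent.SYP
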